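import Mathlib

/-!
# Exponential averages: the kernel `(θ U + 1) e^{-θ (U - l)} - 1`
-/

set_option autoImplicit false

open MeasureTheory Filter Topology Set
open scoped Interval

namespace Pool.Agent.Q284.B

/-- small in the mean: `|e| ≤ ε + g` with an integrable `g` -/
structure Sm (e : ℝ → ℝ) : Prop where
  loc : ∀ U : ℝ, IntegrableOn e (Ioc 1 U)
  dom : ∀ ε : ℝ, 0 < ε → ∃ g : ℝ → ℝ, IntegrableOn g (Ioi 1) ∧ (∀ l, 0 ≤ g l) ∧
    ∀ l : ℝ, 1 < l → |e l| ≤ ε + g l

theorem Sm.add {e f : ℝ → ℝ} (he : Sm e) (hf : Sm f) : Sm fun l => e l + f l where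
  loc := fun U => (he.loc U).add (hf.loc U)
  dom := fun ε hε => by
    obtain ⟨g, h1, h2, h3⟩ := he.dom (ε / 2) (half_pos hε)
    obtain ⟨k, h4, h5, h6⟩ := hf.dom (ε / 2) (half_pos hε)
    refine ⟨fun l => g l + k l, h1.add h4, fun l => add_nonneg (h2 l) (h5 l), fun l hl => ?_⟩
    have := abs_add_le (e l) (f l)
    have := h3 l hl
    have := h6 l hl
    linarith

theorem Sm.neg {e : ℝ → ℝ} (he : Sm e) : Sm fun l => -e l where
  loc := fun U => (he.loc U).neg
  dom := fun ε hε => by
    obtain ⟨g, h1, h2, h3⟩ := he.dom ε hε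
    exact ⟨g, h1, h2, fun l hl => by rw [abs_neg]; exact h3 l hl⟩

theorem sm_of_tendsto {e : ℝ → ℝ} (hl : ∀ U : ℝ, IntegrableOn e (Ioc 1 U))
    (h : Tendsto e atTop (𝓝 0)) : Sm e where
  loc := hl
  dom := fun ε hε => by
    obtain ⟨U, hU⟩ := (h.abs.eventually (gt_mem_nhds (show |(0 : ℝ)| < ε by rw [abs_zero]; exact hε))).exists_forall_of_atTop
    refine ⟨(Ioc 1 U).indicator fun l => |e l|, ?_, fun l => ?_, fun l h1 => ?_⟩
    · have h2 : Integrable ((Ioc 1 U).indicator fun l => |e l|) :=
        (integrable_indicator_iff measurableSet_Ioc).2 (hl U).abs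
      exact h2.integrableOn
    · exact indicator_nonneg (fun _ _ => abs_nonneg _) _
    · rcases le_or_gt l U with h2 | h2
      · rw [indicator_of_mem (show l ∈ Ioc 1 U from ⟨h1, h2⟩)]
        linarith
      · have h3 := hU l h2.le
        have h4 : 0 ≤ (Ioc 1 U).indicator (fun l => |e l|) l :=
          indicator_nonneg (fun _ _ => abs_nonneg _) _
        linarith

theorem sm_of_sq {e : ℝ → ℝ} (hm : ∀ U : ℝ, AEStronglyMeasurable e (volume.restrict (Ioc 1 U)))
    (h : IntegrableOn (fun l => e l ^ 2) (Ioi 1)) : Sm e where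
  loc := fun U => by
    have h1 : IntegrableOn (fun l => 1 + e l ^ 2) (Ioc 1 U) :=
      (integrableOn_const (by simp)).add (h.mono_set Ioc_subset_Ioi_self)
    refine Integrable.mono' h1 (hm U)
      (Eventually.of_forall fun l => ?_)
    rw [Real.norm_eq_abs]
    nlinarith [sq_abs (e l), sq_nonneg (|e l| - 1), abs_nonneg (e l)]
  dom := fun ε hε => by
    refine ⟨fun l => e l ^ 2 / ε, h.div_const ε, fun l => by positivity, fun l _ => ?_⟩
    have h1 : |e l| * ε ≤ ε * ε + e l ^ 2 := by
      nlinarith [sq_abs (e l), sq_nonneg (|e l| - ε), abs_nonneg (e l)]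
    have h2 : ε + e l ^ 2 / ε = (ε * ε + e l ^ 2) / ε := by field_simp
    rw [h2, le_div_iff₀ hε]
    exact h1

section

variable {θ : ℝ}

theorem exp_int (hθ : 0 < θ) (a U : ℝ) :
    ∫ l in a..U, Real.exp (-(θ * (U - l))) = (1 - Real.exp (-(θ * (U - a)))) / θ := by
  have h1 : ∀ l ∈ uIcc a U, HasDerivAt (fun l => Real.exp (-(θ * (U - l))) / θ)
      (Real.exp (-(θ * (U - l)))) l := by
    intro l _
    have h2 : HasDerivAt (fun l : ℝ => -(θ * (U - l))) θ l := by
      have h3 : HasDerivAt (fun l : ℝ => θ * l - θ * U) θ l := by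
        simpa using ((hasDerivAt_id l).const_mul θ).sub_const (θ * U)
      have e1 : (fun l : ℝ => -(θ * (U - l))) = fun l : ℝ => θ * l - θ * U := by
        funext l
        ring
      rw [e1]
      exact h3
    have := h2.exp.div_const θ
    rwa [mul_div_assoc, div_self hθ.ne', mul_one] at this
  rw [intervalIntegral.integral_eq_sub_of_hasDerivAt h1
    ((by fun_prop : Continuous fun l : ℝ => Real.exp (-(θ * (U - l)))).intervalIntegrable _ _)]
  simp only [sub_self, mul_zero, neg_zero, Real.exp_zero]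
  ring

theorem expl_le_one (hθ : 0 < θ) {l U : ℝ} (h : l ≤ U) : Real.exp (-(θ * (U - l))) ≤ 1 := by
  rw [Real.exp_le_one_iff]
  have : 0 ≤ θ * (U - l) := mul_nonneg hθ.le (by linarith)
  linarith

theorem exp_tendsto (hθ : 0 < θ) (l : ℝ) : Tendsto (fun U : ℝ => Real.exp (-(θ * (U - l)))) atTop (𝓝 0) := by
  refine Real.tendsto_exp_atBot.comp ?_
  refine tendsto_neg_atTop_atBot.comp ?_
  exact (tendsto_atTop_add_const_right _ (-l) tendsto_id).const_mul_atTop hθ

theorem conv_int {g : ℝ → ℝ} (hθ : 0 < θ) (hg : IntegrableOn g (Ioi 1)) (h0 : ∀ l, 0 ≤ g l) :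
    Tendsto (fun U : ℝ => ∫ l in (1 : ℝ)..U, Real.exp (-(θ * (U - l))) * g l) atTop (𝓝 0) := by
  have h1 : ∀ U : ℝ, 1 ≤ U → ∫ l in (1 : ℝ)..U, Real.exp (-(θ * (U - l))) * g l =
      ∫ l in Ioi (1 : ℝ), (Iic U).indicator (fun l => Real.exp (-(θ * (U - l))) * g l) l := by
    intro U hU
    rw [intervalIntegral.integral_of_le hU, setIntegral_indicator measurableSet_Iic]
    rfl
  have h2 : Tendsto (fun U : ℝ => ∫ l in Ioi (1 : ℝ),
      (Iic U).indicator (fun l => Real.exp (-(θ * (U - l))) * g l) l) atTop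
      (𝓝 (∫ _ in Ioi (1 : ℝ), (0 : ℝ))) := by
    refine tendsto_integral_filter_of_dominated_convergence g ?_ ?_ hg ?_
    · refine Eventually.of_forall fun U => ?_
      refine AEStronglyMeasurable.indicator ?_ measurableSet_Iic
      exact (by fun_prop : Continuous fun l : ℝ => Real.exp (-(θ * (U - l)))).aestronglyMeasurable.mul
        hg.aestronglyMeasurable
    · refine Eventually.of_forall fun U => Eventually.of_forall fun l => ?_
      by_cases h : l ∈ Iic U
      · rw [indicator_of_mem h, norm_mul, Real.norm_of_nonneg (Real.exp_pos _).le,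
          Real.norm_of_nonneg (h0 l)]
        exact mul_le_of_le_one_left (h0 l) (expl_le_one hθ h)
      · rw [indicator_of_notMem h, norm_zero]
        exact h0 l
    · refine Eventually.of_forall fun l => ?_
      have h3 := (exp_tendsto hθ l).mul_const (g l)
      rw [zero_mul] at h3
      refine h3.congr' ?_
      filter_upwards [eventually_ge_atTop l] with U hU
      rw [indicator_of_mem (show l ∈ Iic U from hU)]
  rw [integral_zero] at h2
  refine h2.congr' ?_
  filter_upwards [eventually_ge_atTop 1] with U hU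
  exact (h1 U hU).symm

theorem Sm.eint {e : ℝ → ℝ} (he : Sm e) {U : ℝ} (hU : 1 ≤ U) :
    IntervalIntegrable (fun l => Real.exp (-(θ * (U - l))) * |e l|) volume 1 U := by
  have h1 : IntervalIntegrable (fun l => |e l|) volume 1 U := by
    rw [intervalIntegrable_iff_integrableOn_Ioc_of_le hU]
    exact (he.loc U).abs
  exact h1.continuousOn_mul (by fun_prop)

theorem Sm.aint {e : ℝ → ℝ} (he : Sm e) {U : ℝ} (hU : 1 ≤ U) :
    IntervalIntegrable (fun l => |e l|) volume 1 U := by
  rw [intervalIntegrable_iff_integrableOn_Ioc_of_le hU]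
  exact (he.loc U).abs

theorem Sm.conv {e : ℝ → ℝ} (he : Sm e) (hθ : 0 < θ) :
    Tendsto (fun U : ℝ => ∫ l in (1 : ℝ)..U, Real.exp (-(θ * (U - l))) * |e l|) atTop (𝓝 0) := by
  rw [Metric.tendsto_nhds]
  intro ε hε
  obtain ⟨g, h1, h2, h3⟩ := he.dom (ε * θ / 2) (by positivity)
  have h4 := (Metric.tendsto_nhds.1 (conv_int hθ h1 h2)) (ε / 2) (half_pos hε)
  filter_upwards [h4, eventually_ge_atTop 1] with U h5 hU
  rw [Real.dist_eq, sub_zero] at h5 ⊢
  have i1 : IntervalIntegrable g volume 1 U := by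
    rw [intervalIntegrable_iff_integrableOn_Ioc_of_le hU]
    exact h1.mono_set Ioc_subset_Ioi_self
  have i2 : IntervalIntegrable (fun l => Real.exp (-(θ * (U - l))) * g l) volume 1 U :=
    i1.continuousOn_mul (by fun_prop)
  have i3 : IntervalIntegrable (fun l => Real.exp (-(θ * (U - l))) * (ε * θ / 2)) volume 1 U :=
    ((by fun_prop : Continuous fun l : ℝ =>
      Real.exp (-(θ * (U - l))) * (ε * θ / 2)).intervalIntegrable _ _)
  have h6 : 0 ≤ ∫ l in (1 : ℝ)..U, Real.exp (-(θ * (U - l))) * |e l| :=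
    intervalIntegral.integral_nonneg hU fun l _ => by positivity
  rw [abs_of_nonneg h6]
  have h7 : ∫ l in (1 : ℝ)..U, Real.exp (-(θ * (U - l))) * |e l| ≤
      ∫ l in (1 : ℝ)..U, (Real.exp (-(θ * (U - l))) * (ε * θ / 2) +
        Real.exp (-(θ * (U - l))) * g l) := by
    refine intervalIntegral.integral_mono_ae_restrict hU (he.eint hU) (i3.add i2) ?_
    have h8 : ∀ᵐ l ∂(volume.restrict (Icc 1 U)), l ≠ 1 := by
      refine ae_restrict_of_ae ?_
      simp [ae_iff, measure_singleton]
    filter_upwards [ae_restrict_mem measurableSet_Icc, h8] with l hl hl1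
    have h9 := h3 l (lt_of_le_of_ne hl.1 (Ne.symm hl1))
    rw [← mul_add]
    exact mul_le_mul_of_nonneg_left h9 (Real.exp_pos _).le
  rw [intervalIntegral.integral_add i3 i2, intervalIntegral.integral_mul_const, exp_int hθ] at h7
  have h8 : (1 - Real.exp (-(θ * (U - 1)))) / θ * (ε * θ / 2) ≤ ε / 2 := by
    have h9 := Real.exp_pos (-(θ * (U - 1)))
    have h10 : (1 - Real.exp (-(θ * (U - 1)))) / θ * (ε * θ / 2) =
      (1 - Real.exp (-(θ * (U - 1)))) * (ε / 2) := by field_simp
    rw [h10]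
    nlinarith
  have h9 := le_abs_self (∫ l in (1 : ℝ)..U, Real.exp (-(θ * (U - l))) * g l)
  linarith

theorem Sm.ces {e : ℝ → ℝ} (he : Sm e) :
    Tendsto (fun U : ℝ => (∫ l in (1 : ℝ)..U, |e l|) / U) atTop (𝓝 0) := by
  rw [Metric.tendsto_nhds]
  intro ε hε
  obtain ⟨g, h1, h2, h3⟩ := he.dom (ε / 2) (by positivity)
  have h4 : Tendsto (fun U : ℝ => (∫ l in Ioi (1 : ℝ), g l) / U) atTop (𝓝 0) :=
    tendsto_const_nhds.div_atTop tendsto_id
  have h5 := (Metric.tendsto_nhds.1 h4) (ε / 2) (half_pos hε)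
  filter_upwards [h5, eventually_ge_atTop 1] with U h6 hU
  have hU0 : 0 < U := by linarith
  rw [Real.dist_eq, sub_zero] at h6 ⊢
  have i1 : IntervalIntegrable g volume 1 U := by
    rw [intervalIntegrable_iff_integrableOn_Ioc_of_le hU]
    exact h1.mono_set Ioc_subset_Ioi_self
  have h7 : 0 ≤ ∫ l in (1 : ℝ)..U, |e l| :=
    intervalIntegral.integral_nonneg hU fun l _ => abs_nonneg _
  rw [abs_of_nonneg (by positivity)]
  have h8 : ∫ l in (1 : ℝ)..U, |e l| ≤ ∫ l in (1 : ℝ)..U, (ε / 2 + g l) := by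
    refine intervalIntegral.integral_mono_ae_restrict hU (he.aint hU)
      (intervalIntegrable_const.add i1) ?_
    have h8 : ∀ᵐ l ∂(volume.restrict (Icc 1 U)), l ≠ 1 := by
      refine ae_restrict_of_ae ?_
      simp [ae_iff, measure_singleton]
    filter_upwards [ae_restrict_mem measurableSet_Icc, h8] with l hl hl1
    exact h3 l (lt_of_le_of_ne hl.1 (Ne.symm hl1))
  rw [intervalIntegral.integral_add intervalIntegrable_const i1, intervalIntegral.integral_const,
    smul_eq_mul] at h8
  have h9 : ∫ l in (1 : ℝ)..U, g l ≤ ∫ l in Ioi (1 : ℝ), g l := by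
    rw [intervalIntegral.integral_of_le hU]
    exact setIntegral_mono_set h1 (Eventually.of_forall h2) Ioc_subset_Ioi_self.eventuallyLE
  rw [div_lt_iff₀ hU0]
  have h10 := le_abs_self ((∫ l in Ioi (1 : ℝ), g l) / U)
  have h11 : (∫ l in Ioi (1 : ℝ), g l) / U < ε / 2 := lt_of_le_of_lt h10 h6
  rw [div_lt_iff₀ hU0] at h11
  nlinarith

/-- the kernel -/
noncomputable def ker (θ U l : ℝ) : ℝ := (θ * U + 1) * Real.exp (-(θ * (U - l))) - 1

theorem ker_cont (θ U : ℝ) : Continuous (ker θ U) := by unfold ker; fun_prop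

/-- the smoothed average -/
noncomputable def TT (θ : ℝ) (β : ℝ → ℝ) (a U : ℝ) : ℝ := (∫ l in a..U, ker θ U l * β l) / (θ * U)

theorem tt_small {e : ℝ → ℝ} (he : Sm e) (hθ : 0 < θ) : Tendsto (TT θ e 1) atTop (𝓝 0) := by
  have h1 := ((he.conv hθ).mul_const (1 + 1 / θ)).add (he.ces.mul_const (1 / θ))
  rw [zero_mul, zero_mul, add_zero] at h1
  refine squeeze_zero_norm' ?_ h1
  filter_upwards [eventually_ge_atTop 1] with U hU
  have hU0 : 0 < U := by linarith
  have i1 := he.eint (θ := θ) hU
  have i2 := he.aint hU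
  unfold TT
  rw [norm_div, Real.norm_of_nonneg (by positivity : 0 ≤ θ * U), div_le_iff₀ (by positivity)]
  have h2 : ‖∫ l in (1 : ℝ)..U, ker θ U l * e l‖ ≤ ∫ l in (1 : ℝ)..U,
      ((θ * U + 1) * (Real.exp (-(θ * (U - l))) * |e l|) + |e l|) := by
    refine intervalIntegral.norm_integral_le_of_norm_le hU ?_ ((i1.const_mul _).add i2)
    refine Eventually.of_forall fun l _ => ?_
    rw [norm_mul, Real.norm_eq_abs, Real.norm_eq_abs]
    unfold ker
    have h3 : |(θ * U + 1) * Real.exp (-(θ * (U - l))) - 1| ≤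
        (θ * U + 1) * Real.exp (-(θ * (U - l))) + 1 := by
      refine (abs_sub _ _).trans ?_
      rw [abs_one, abs_of_nonneg (by positivity)]
    calc _ ≤ ((θ * U + 1) * Real.exp (-(θ * (U - l))) + 1) * |e l| :=
          mul_le_mul_of_nonneg_right h3 (abs_nonneg _)
      _ = _ := by ring
  refine h2.trans ?_
  rw [intervalIntegral.integral_add (i1.const_mul _) i2, intervalIntegral.integral_const_mul]
  set A : ℝ := ∫ l in (1 : ℝ)..U, Real.exp (-(θ * (U - l))) * |e l| with hA
  set B : ℝ := ∫ l in (1 : ℝ)..U, |e l| with hB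
  have hA0 : 0 ≤ A := intervalIntegral.integral_nonneg hU fun l _ => by positivity
  have h4 : (A * (1 + 1 / θ) + B / U * (1 / θ)) * (θ * U) = A * (θ * U + U) + B := by
    field_simp
  rw [h4]
  have h5 : (1 : ℝ) * A ≤ U * A := mul_le_mul_of_nonneg_right hU hA0
  nlinarith

theorem tt_one (hθ : 0 < θ) : Tendsto (TT θ (fun _ => 1) 1) atTop (𝓝 0) := by
  have h1 : ∀ U : ℝ, 1 ≤ U → TT θ (fun _ => 1) 1 U =
      (1 / θ + 1 - (U + 1 / θ) * Real.exp (-(θ * (U - 1)))) / (θ * U) := by
    intro U hU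
    unfold TT ker
    simp only [mul_one]
    rw [intervalIntegral.integral_sub (Continuous.intervalIntegrable (by fun_prop) _ _)
      intervalIntegrable_const, intervalIntegral.integral_const_mul, exp_int hθ,
      intervalIntegral.integral_const, smul_eq_mul]
    congr 1
    field_simp
    ring
  have h2 : Tendsto (fun U : ℝ => (1 / θ + 1) / (θ * U)) atTop (𝓝 0) :=
    tendsto_const_nhds.div_atTop (tendsto_id.const_mul_atTop hθ)
  have h3 : Tendsto (fun U : ℝ => (1 / θ + 1 / θ ^ 2) * Real.exp (-(θ * (U - 1)))) atTop (𝓝 0) := by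
    have := (exp_tendsto hθ 1).const_mul (1 / θ + 1 / θ ^ 2)
    rwa [mul_zero] at this
  have h4 := h2.add h3
  rw [add_zero] at h4
  refine squeeze_zero_norm' ?_ h4
  filter_upwards [eventually_ge_atTop 1] with U hU
  have hU0 : 0 < U := by linarith
  rw [h1 U hU, Real.norm_eq_abs, sub_div]
  refine (abs_sub _ _).trans ?_
  rw [abs_of_nonneg (by positivity), abs_of_nonneg (by positivity)]
  refine add_le_add le_rfl ?_
  rw [div_le_iff₀ (by positivity)]
  have h5 : (1 / θ + 1 / θ ^ 2) * Real.exp (-(θ * (U - 1))) * (θ * U) =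
      (U + U / θ) * Real.exp (-(θ * (U - 1))) := by field_simp
  rw [h5]
  refine mul_le_mul_of_nonneg_right ?_ (Real.exp_pos _).le
  have : 1 / θ ≤ U / θ := by gcongr
  linarith

theorem tt_log (hθ : 0 < θ) : Tendsto (TT θ Real.log 1) atTop (𝓝 (1 / θ)) := by
  have hinv : Sm fun l : ℝ => l⁻¹ := by
    refine sm_of_tendsto (fun U => ?_) tendsto_inv_atTop_zero
    rcases le_or_gt U 1 with h | h
    · rw [Ioc_eq_empty (by linarith)]; exact integrableOn_empty
    · rw [← intervalIntegrable_iff_integrableOn_Ioc_of_le h.le]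
      refine ContinuousOn.intervalIntegrable fun x hx => ?_
      rw [uIcc_of_le h.le] at hx
      exact (continuousAt_inv₀ (by linarith [hx.1])).continuousWithinAt
  set I : ℝ → ℝ := fun U => ∫ l in (1 : ℝ)..U, Real.exp (-(θ * (U - l))) * l⁻¹ with hI
  have hI0 : Tendsto I atTop (𝓝 0) := by
    refine (hinv.conv hθ).congr' ?_
    filter_upwards [eventually_ge_atTop 1] with U hU
    refine intervalIntegral.integral_congr fun l hl => ?_
    rw [uIcc_of_le hU] at hl
    show Real.exp (-(θ * (U - l))) * |l⁻¹| = Real.exp (-(θ * (U - l))) * l⁻¹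
    rw [abs_of_pos (inv_pos.2 (by linarith [hl.1]))]
  have hJ : ∀ U : ℝ, 1 ≤ U → ∫ l in (1 : ℝ)..U, Real.exp (-(θ * (U - l))) * Real.log l =
      (Real.log U - I U) / θ := by
    intro U hU
    have hd : ∀ l ∈ uIcc 1 U, HasDerivAt (fun l => Real.exp (-(θ * (U - l))) * Real.log l / θ)
        (Real.exp (-(θ * (U - l))) * Real.log l + Real.exp (-(θ * (U - l))) * l⁻¹ / θ) l := by
      intro l hl
      rw [uIcc_of_le hU] at hl
      have h2 : HasDerivAt (fun l : ℝ => -(θ * (U - l))) θ l := by
        have h3 : HasDerivAt (fun l : ℝ => θ * l - θ * U) θ l := by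
          simpa using ((hasDerivAt_id l).const_mul θ).sub_const (θ * U)
        have e1 : (fun l : ℝ => -(θ * (U - l))) = fun l : ℝ => θ * l - θ * U := by
          funext l
          ring
        rw [e1]
        exact h3
      have h3 := (h2.exp.mul (Real.hasDerivAt_log (by linarith [hl.1] : l ≠ 0))).div_const θ
      refine h3.congr_deriv ?_
      field_simp
    have i1 : IntervalIntegrable (fun l => Real.exp (-(θ * (U - l))) * Real.log l) volume 1 U := by
      refine ContinuousOn.intervalIntegrable (ContinuousOn.mul (by fun_prop) ?_)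
      refine Real.continuousOn_log.mono fun x hx => ?_
      rw [uIcc_of_le hU] at hx
      simp only [mem_compl_iff, mem_singleton_iff]
      linarith [hx.1]
    have i2 : IntervalIntegrable (fun l => Real.exp (-(θ * (U - l))) * l⁻¹ / θ) volume 1 U := by
      refine ContinuousOn.intervalIntegrable (ContinuousOn.div_const (ContinuousOn.mul (by fun_prop) ?_) _)
      intro x hx
      rw [uIcc_of_le hU] at hx
      exact (continuousAt_inv₀ (by linarith [hx.1])).continuousWithinAt
    have h4 := intervalIntegral.integral_eq_sub_of_hasDerivAt hd (i1.add i2)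
    rw [intervalIntegral.integral_add i1 i2, intervalIntegral.integral_div] at h4
    simp only [sub_self, mul_zero, neg_zero, Real.exp_zero, one_mul, Real.log_one, zero_div] at h4
    rw [hI]
    simp only
    rw [sub_div]
    linarith
  have h1 : ∀ U : ℝ, 1 ≤ U → TT θ Real.log 1 U =
      1 / θ + (1 / θ ^ 2 * (Real.log U / U) - (1 / θ + 1 / (θ ^ 2 * U)) * I U - 1 / (θ * U)) := by
    intro U hU
    have hU0 : 0 < U := by linarith
    have i1 : IntervalIntegrable (fun l => (θ * U + 1) * (Real.exp (-(θ * (U - l))) * Real.log l))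
        volume 1 U := by
      refine (ContinuousOn.intervalIntegrable (ContinuousOn.mul (by fun_prop) ?_)).const_mul _
      refine Real.continuousOn_log.mono fun x hx => ?_
      rw [uIcc_of_le hU] at hx
      simp only [mem_compl_iff, mem_singleton_iff]
      linarith [hx.1]
    have h2 : ∫ l in (1 : ℝ)..U, ker θ U l * Real.log l =
        (θ * U + 1) * ((Real.log U - I U) / θ) - (U * Real.log U - U + 1) := by
      have e1 : (fun l => ker θ U l * Real.log l) =
          fun l => (θ * U + 1) * (Real.exp (-(θ * (U - l))) * Real.log l) - Real.log l := by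
        funext l
        unfold ker
        ring
      rw [e1, intervalIntegral.integral_sub i1 intervalIntegral.intervalIntegrable_log',
        intervalIntegral.integral_const_mul, hJ U hU, integral_log, Real.log_one]
      ring
    unfold TT
    rw [h2]
    field_simp
    ring
  have h2 : Tendsto (fun U : ℝ => Real.log U / U) atTop (𝓝 0) := by
    have := Real.isLittleO_log_id_atTop
    exact this.tendsto_div_nhds_zero
  have h3 : Tendsto (fun U : ℝ => 1 / (θ ^ 2 * U)) atTop (𝓝 0) :=
    tendsto_const_nhds.div_atTop (tendsto_id.const_mul_atTop (by positivity))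
  have h4 : Tendsto (fun U : ℝ => 1 / (θ * U)) atTop (𝓝 0) :=
    tendsto_const_nhds.div_atTop (tendsto_id.const_mul_atTop hθ)
  have h5 := tendsto_const_nhds (x := 1 / θ) |>.add
    (((h2.const_mul (1 / θ ^ 2)).sub ((h3.const_add (1 / θ)).mul hI0)).sub h4)
  have h6 : 1 / θ + (1 / θ ^ 2 * 0 - (1 / θ + 0) * 0 - 0) = 1 / θ := by ring
  rw [h6] at h5
  refine h5.congr' ?_
  filter_upwards [eventually_ge_atTop 1] with U hU
  exact (h1 U hU).symm

theorem tt_head {β : ℝ → ℝ} {M : ℝ} (hM : ∀ l ∈ Ioc (0 : ℝ) 1, |β l| ≤ M) (hθ : 0 < θ) :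
    Tendsto (fun U : ℝ => (∫ l in (0 : ℝ)..1, ker θ U l * β l) / (θ * U)) atTop (𝓝 0) := by
  have hM0 : 0 ≤ M := (abs_nonneg _).trans (hM 1 ⟨one_pos, le_rfl⟩)
  have h2 : Tendsto (fun U : ℝ => M / (θ * U)) atTop (𝓝 0) :=
    tendsto_const_nhds.div_atTop (tendsto_id.const_mul_atTop hθ)
  have h3 : Tendsto (fun U : ℝ => (M + M / θ) * Real.exp (-(θ * (U - 1)))) atTop (𝓝 0) := by
    have := (exp_tendsto hθ 1).const_mul (M + M / θ)
    rwa [mul_zero] at this
  have h4 := h3.add h2
  rw [add_zero] at h4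
  refine squeeze_zero_norm' ?_ h4
  filter_upwards [eventually_ge_atTop 1] with U hU
  have hU0 : 0 < U := by linarith
  rw [norm_div, Real.norm_of_nonneg (by positivity : 0 ≤ θ * U), div_le_iff₀ (by positivity)]
  have h5 : ‖∫ l in (0 : ℝ)..1, ker θ U l * β l‖ ≤
      ((θ * U + 1) * Real.exp (-(θ * (U - 1))) + 1) * M * |1 - 0| := by
    refine intervalIntegral.norm_integral_le_of_norm_le_const fun l hl => ?_
    rw [uIoc_of_le zero_le_one] at hl
    rw [norm_mul, Real.norm_eq_abs, Real.norm_eq_abs]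
    refine mul_le_mul ?_ (hM l hl) (abs_nonneg _) (by positivity)
    unfold ker
    refine (abs_sub _ _).trans ?_
    rw [abs_one, abs_of_nonneg (by positivity)]
    have : Real.exp (-(θ * (U - l))) ≤ Real.exp (-(θ * (U - 1))) := by
      apply Real.exp_le_exp.2
      nlinarith [hl.2]
    gcongr
  refine h5.trans (le_of_le_of_eq ?_ (show
    ((M + M / θ) * Real.exp (-(θ * (U - 1)))) * (θ * U) + M = _ by field_simp))
  rw [sub_zero, abs_one, mul_one]
  have h6 : (M + M / θ) * Real.exp (-(θ * (U - 1))) * (θ * U) =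
      (θ * U + U) * (M * Real.exp (-(θ * (U - 1)))) := by field_simp
  rw [h6]
  have h7 : 0 ≤ M * Real.exp (-(θ * (U - 1))) := by positivity
  nlinarith

/-- **The limit of the smoothed averages.** -/
theorem tt_main {β e : ℝ → ℝ} {c c' M : ℝ} (hβ : ∀ U : ℝ, IntervalIntegrable β volume 0 U)
    (hM : ∀ l ∈ Ioc (0 : ℝ) 1, |β l| ≤ M)
    (he : Sm e) (heq : ∀ l : ℝ, 1 ≤ l → β l = c * Real.log l + c' + e l) (hθ : 0 < θ) :
    Tendsto (TT θ β 0) atTop (𝓝 (c / θ)) := by
  have h1 := (tt_head hM hθ).add ((((tt_log hθ).const_mul c).add ((tt_one hθ).const_mul c')).add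
    (tt_small he hθ))
  have e1 : 0 + (c * (1 / θ) + c' * 0 + 0) = c / θ := by ring
  rw [e1] at h1
  refine h1.congr' ?_
  filter_upwards [eventually_ge_atTop 1] with U hU
  have hU0 : 0 < U := by linarith
  have j0 : ∀ x : ℝ, IntervalIntegrable (fun l => ker θ U l * β l) volume 0 x := fun x =>
    (hβ x).continuousOn_mul (ker_cont θ U).continuousOn
  have jl : IntervalIntegrable (fun l => ker θ U l * Real.log l) volume 1 U :=
    intervalIntegral.intervalIntegrable_log'.continuousOn_mul (ker_cont θ U).continuousOn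
  have j1 : IntervalIntegrable (fun l => ker θ U l * (fun _ => (1 : ℝ)) l) volume 1 U :=
    (intervalIntegrable_const).continuousOn_mul (ker_cont θ U).continuousOn
  have je : IntervalIntegrable (fun l => ker θ U l * e l) volume 1 U := by
    have h2 : IntervalIntegrable e volume 1 U := by
      rw [intervalIntegrable_iff_integrableOn_Ioc_of_le hU]
      exact he.loc U
    exact h2.continuousOn_mul (ker_cont θ U).continuousOn
  unfold TT
  rw [← intervalIntegral.integral_add_adjacent_intervals (j0 1) ((j0 1).symm.trans (j0 U))]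
  have h3 : ∫ l in (1 : ℝ)..U, ker θ U l * β l = c * (∫ l in (1 : ℝ)..U, ker θ U l * Real.log l) +
      c' * (∫ l in (1 : ℝ)..U, ker θ U l * (fun _ => (1 : ℝ)) l) +
      ∫ l in (1 : ℝ)..U, ker θ U l * e l := by
    rw [← intervalIntegral.integral_const_mul, ← intervalIntegral.integral_const_mul,
      ← intervalIntegral.integral_add (jl.const_mul _) (j1.const_mul _),
      ← intervalIntegral.integral_add ((jl.const_mul _).add (j1.const_mul _)) je]
    refine intervalIntegral.integral_congr fun l hl => ?_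
    rw [uIcc_of_le hU] at hl
    simp only
    rw [heq l hl.1]
    ring
  rw [h3]
  ring

end

end Pool.Agent.Q284.B
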