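import Pool.Agent.Q284.B.Sum
import Pool.Agent.W263.BSD.Final

/-!
# Lower bounds for the mean bias exclude zeros
-/

set_option autoImplicit false

open MeasureTheory Filter Topology Set Classical
open Pool.Agent.W263.BSD
open Pool.Agent.Q284.K (idx mem_idx_exp mem_idx)

namespace Pool.Agent.Q284.B

variable {a b : ℤ}

theorem harm {U : ℝ} (hU : 0 ≤ U) : ∑ p ∈ idx a b (Real.exp U), (1 : ℝ) / p ≤ 1 + U := by
  have h1 := harmonic_le_one_add_log ⌊Real.exp U⌋₊
  rw [harmonic_eq_sum_Icc] at h1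
  push_cast at h1
  have h2 : Real.log (⌊Real.exp U⌋₊ : ℝ) ≤ U := by
    have h3 : (1 : ℝ) ≤ Real.exp U := Real.one_le_exp hU
    have h4 : 1 ≤ ⌊Real.exp U⌋₊ := by
      rw [Nat.one_le_floor_iff]
      exact h3
    have h5 : (0 : ℝ) < ⌊Real.exp U⌋₊ := by exact_mod_cast h4
    rw [Real.log_le_iff_le_exp h5]
    exact Nat.floor_le (Real.exp_pos _).le
  have h3 : ∑ p ∈ idx a b (Real.exp U), (1 : ℝ) / p ≤
      ∑ i ∈ Finset.Icc 1 ⌊Real.exp U⌋₊, ((i : ℝ))⁻¹ := by
    refine (Finset.sum_le_sum_of_subset_of_nonneg ?_ fun i _ _ => by positivity).trans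
      (le_of_eq (Finset.sum_congr rfl fun i _ => one_div _))
    intro p hp
    unfold Pool.Agent.Q284.K.idx at hp
    rw [Finset.mem_filter, Finset.mem_range] at hp
    rw [Finset.mem_Icc]
    exact ⟨hp.2.1.one_le, by omega⟩
  linarith

theorem tp_eq (a b : ℤ) (p : ℕ) : tp a b p = tt (Ap a b) p := rfl

theorem main_close {p : ℕ} (hp : p ∈ SS a b) :
    |tp a b p + cc (Ap a b) p - mm (Ap a b) p| ≤ 30 * dl p ^ 3 := by
  have E := eData a b
  have h2 := E.log_fac hp (X := 1) (by simp)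
  rw [← E.cc_eq hp] at h2
  have h3 : ((cc (Ap a b) p : ℂ) - (-(tt (Ap a b) p) * 1 + mm (Ap a b) p * 1 ^ 2)) =
      ((tp a b p + cc (Ap a b) p - mm (Ap a b) p : ℝ) : ℂ) := by
    rw [tp_eq]
    push_cast
    ring
  rw [h3, Complex.norm_real, Real.norm_eq_abs] at h2
  exact h2

theorem cc_tt {p : ℕ} (hp : p ∈ SS a b) : |cc (Ap a b) p + tp a b p| ≤ 7 * (1 / p) := by
  have E := eData a b
  have h1 := main_close hp
  have h2 := E.mm_le hp
  have h25 := hp.2
  have h3 := dl_nonneg p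
  have h4 := dl_le h25
  have h5 : dl p ^ 3 ≤ 1 / 5 * (1 / p) := by
    rw [← dl_sq (by omega : 1 ≤ p)]
    nlinarith [sq_nonneg (dl p)]
  have e : cc (Ap a b) p + tp a b p = (tp a b p + cc (Ap a b) p - mm (Ap a b) p) +
      mm (Ap a b) p := by ring
  rw [e]
  refine (abs_add_le _ _).trans ?_
  linarith

/-- `R_1` is close to minus the integral of the logarithm of the product -/
theorem aak_close {U : ℝ} (hU : 0 < U) :
    |aak (SS a b) (Ap a b) 1 U + RR a b U| ≤
      U * (7 * (1 + U) + ∑ p ∈ Finset.range 25, |tp a b p|) := by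
  have h1 : aak (SS a b) (Ap a b) 1 U = ∑ p ∈ idx a b (Real.exp U),
      if p ∈ SS a b then cc (Ap a b) p * (U - Real.log p) else 0 := by
    unfold aak Pool.Agent.Q284.K.idx
    rw [Finset.sum_filter]
    refine Finset.sum_congr rfl fun p _ => ?_
    unfold rt
    by_cases h : p ∈ SS a b
    · rw [if_pos h, if_pos h, if_pos h.1]
      simp
    · rw [if_neg h, if_neg h, ite_self]
  rw [h1]
  unfold RR
  rw [← Finset.sum_add_distrib]
  refine (Finset.abs_sum_le_sum_abs _ _).trans ?_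
  have h2 : ∀ p ∈ idx a b (Real.exp U),
      |(if p ∈ SS a b then cc (Ap a b) p * (U - Real.log p) else 0) + tp a b p * (U - Real.log p)| ≤
        U * (7 * (1 / p) + if p < 25 then |tp a b p| else 0) := by
    intro p hp
    have h3 := mem_idx_exp.1 hp
    have h4 := log_pos_of h3.2
    by_cases h : p ∈ SS a b
    · have h25 := h.2
      rw [if_pos h, if_neg (by omega), add_zero, ← add_mul, abs_mul,
        abs_of_nonneg (by linarith [h3.1] : 0 ≤ U - Real.log p), mul_comm]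
      exact mul_le_mul (by linarith) (cc_tt h) (abs_nonneg _) hU.le
    · have h25 : p < 25 := by
        by_contra hcon
        exact h ⟨h3.2, by omega⟩
      rw [if_neg h, if_pos h25, zero_add, abs_mul,
        abs_of_nonneg (by linarith [h3.1] : 0 ≤ U - Real.log p), mul_comm]
      refine mul_le_mul (by linarith) ?_ (abs_nonneg _) hU.le
      have : (0 : ℝ) ≤ 7 * (1 / p) := by positivity
      linarith
  refine (Finset.sum_le_sum h2).trans ?_
  rw [← Finset.mul_sum, Finset.sum_add_distrib, ← Finset.mul_sum]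
  refine mul_le_mul_of_nonneg_left ?_ hU.le
  have h3 := harm (a := a) (b := b) hU.le
  have h4 : (∑ p ∈ idx a b (Real.exp U), if p < 25 then |tp a b p| else 0) ≤
      ∑ p ∈ Finset.range 25, |tp a b p| := by
    rw [← Finset.sum_filter]
    refine Finset.sum_le_sum_of_subset_of_nonneg (fun p hp => ?_) fun _ _ _ => abs_nonneg _
    rw [Finset.mem_filter] at hp
    exact Finset.mem_range.2 hp.2
  linarith

/-- `u^k e^{αu}` -/
theorem pow_exp_LInt (k : ℕ) {α w : ℝ} (h : α < w) :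
    LInt (fun u => u ^ k * Real.exp (α * u)) w := by
  have h1 := pow_LInt k (w := w - α) (by linarith)
  unfold LInt at *
  refine h1.congr_fun (fun u _ => ?_) measurableSet_Ioi
  simp only
  rw [mul_assoc, ← Real.exp_add]
  congr 2
  ring

theorem poly_bound {A C θ B : ℝ} (hA : 0 ≤ A) (hC : 0 ≤ C) (hθ : 0 < θ) (hB : 0 ≤ B) {u : ℝ}
    (hu : 0 < u) : (A + C * u) * (2 + 4 * u * (1 + θ * u)) + u * (7 * (1 + u) + B) ≤
      (2 * A + (4 * A + 2 * C) + (4 * A * θ + 4 * C) + 4 * C * θ + (7 + B) + 7) * (1 + u ^ 3) := by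
  have m1 : u ≤ 1 + u ^ 3 := by nlinarith [sq_nonneg (u - 1), mul_pos hu hu, mul_pos (mul_pos hu hu) hu]
  have m2 : u ^ 2 ≤ 1 + u ^ 3 := by
    nlinarith [sq_nonneg (u - 1), mul_pos hu hu, mul_pos (mul_pos hu hu) hu, mul_nonneg hu.le (sq_nonneg (u - 1))]
  have m3 : u ^ 3 ≤ 1 + u ^ 3 := by linarith
  have m0 : 1 ≤ 1 + u ^ 3 := by nlinarith [pow_pos hu 3]
  have e : (A + C * u) * (2 + 4 * u * (1 + θ * u)) + u * (7 * (1 + u) + B) =
      2 * A * 1 + (4 * A + 2 * C) * u + (4 * A * θ + 4 * C) * u ^ 2 + 4 * C * θ * u ^ 3 +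
        (7 + B) * u + 7 * u ^ 2 := by ring
  rw [e]
  have g1 := mul_le_mul_of_nonneg_left m0 (by positivity : 0 ≤ 2 * A)
  have g2 := mul_le_mul_of_nonneg_left m1 (by positivity : 0 ≤ 4 * A + 2 * C)
  have g3 := mul_le_mul_of_nonneg_left m2 (by positivity : 0 ≤ 4 * A * θ + 4 * C)
  have g4 := mul_le_mul_of_nonneg_left m3 (by positivity : 0 ≤ 4 * C * θ)
  have g5 := mul_le_mul_of_nonneg_left m1 (by positivity : 0 ≤ 7 + B)
  have g6 := mul_le_mul_of_nonneg_left m2 (by norm_num : (0 : ℝ) ≤ 7)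
  linarith

/-- nonvanishing from convergence -/
theorem ne_of_conv {F : ℂ → ℂ} (hF : IsLSeries a b F) {α : ℝ} (hα : 0 ≤ α)
    (hconv : ∀ w > α, LInt (aak (SS a b) (Ap a b) 1) w) {s : ℂ} (hs : 1 + α < s.re) : F s ≠ 0 := by
  have h1 := (data 1 hF).eq_of_conv hα hconv (s - 1) (by simp; linarith)
  intro h0
  have h2 : PhiF a b F (s - 1) = 0 := by
    unfold PhiF
    rw [add_sub_cancel, h0, zero_mul]
  rw [h2] at h1
  exact Complex.exp_ne_zero _ h1.symm

/-- **Lower bounds for the mean bias exclude zeros.** -/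
theorem no_zeros_of_lower {F : ℂ → ℂ} (hF : IsLSeries a b F) {θ A C α : ℝ} (hθ : 0 < θ)
    (hA : 0 ≤ A) (hC : 0 ≤ C) (hα : 0 ≤ α)
    (h : ∀ u : ℝ, 0 < u → -((A + C * u) * Real.exp (α * u)) ≤ HH a b θ u) {s : ℂ}
    (hs : 1 + α < s.re) : F s ≠ 0 := by
  set B : ℝ := ∑ p ∈ Finset.range 25, |tp a b p| with hB
  have hB0 : 0 ≤ B := Finset.sum_nonneg fun _ _ => abs_nonneg _
  set D : ℝ := 2 * A + (4 * A + 2 * C) + (4 * A * θ + 4 * C) + 4 * C * θ + (7 + B) + 7 with hD
  set κ : ℝ → ℝ := fun u => D * (u ^ 0 * Real.exp (α * u)) + D * (u ^ 3 * Real.exp (α * u)) with hκ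
  have hκm : Measurable κ := by
    rw [hκ]
    fun_prop
  have hκi : ∀ w > α, LInt κ w := fun w hw =>
    ((pow_exp_LInt 0 hw).const_mul D).add ((pow_exp_LInt 3 hw).const_mul D)
  refine ne_of_conv hF hα ((data 1 hF).core_upper hα hκm hκi fun u hu => ?_) hs
  have h1 := rr_lower hA hC hα hθ h hu
  have h2 := (abs_le.1 (aak_close (a := a) (b := b) hu)).2
  rw [← hB] at h2
  have h3 : 1 ≤ Real.exp (α * u) := Real.one_le_exp (by positivity)
  set E := Real.exp (α * u) with hE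
  have hE0 : 0 < E := Real.exp_pos _
  have h4 : u * (7 * (1 + u) + B) ≤ u * (7 * (1 + u) + B) * E :=
    le_mul_of_one_le_right (by positivity) h3
  have h5 : aak (SS a b) (Ap a b) 1 u ≤ ((A + C * u) * (2 + 4 * u * (1 + θ * u)) +
      u * (7 * (1 + u) + B)) * E := by linarith
  refine h5.trans ?_
  rw [hκ]
  simp only [pow_zero, one_mul]
  have h6 := poly_bound hA hC hθ hB0 hu
  calc _ ≤ D * (1 + u ^ 3) * E := mul_le_mul_of_nonneg_right h6 hE0.le
    _ = _ := by ring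

/-- **Upper bounds for the mean bias exclude zeros, if there are no real zeros.** -/
theorem no_zeros_of_upper {F : ℂ → ℂ} (hF : IsLSeries a b F) {θ A C α : ℝ} (hθ : 0 < θ)
    (hA : 0 ≤ A) (hC : 0 ≤ C) (hα : 0 ≤ α) (hne : ∀ x : ℝ, 1 + α < x → F x ≠ 0)
    (h : ∀ u : ℝ, 0 < u → HH a b θ u ≤ (A + C * u) * Real.exp (α * u)) {s : ℂ}
    (hs : 1 + α < s.re) : F s ≠ 0 := by
  set B : ℝ := ∑ p ∈ Finset.range 25, |tp a b p| with hB
  have hB0 : 0 ≤ B := Finset.sum_nonneg fun _ _ => abs_nonneg _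
  set D : ℝ := 2 * A + (4 * A + 2 * C) + (4 * A * θ + 4 * C) + 4 * C * θ + (7 + B) + 7 with hD
  set κ : ℝ → ℝ := fun u => -D * (u ^ 0 * Real.exp (α * u)) + -D * (u ^ 3 * Real.exp (α * u))
    with hκ
  have hκm : Measurable κ := by
    rw [hκ]
    fun_prop
  have hκi : ∀ w > α, LInt κ w := fun w hw =>
    ((pow_exp_LInt 0 hw).const_mul (-D)).add ((pow_exp_LInt 3 hw).const_mul (-D))
  refine ne_of_conv hF hα ((data 1 hF).core hα hκm hκi (ε := -1) (Or.inr rfl) (fun u hu => ?_)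
    fun x hx _ => ?_) hs
  · have h1 := rr_upper hA hC hα hθ h hu
    have h2 := (abs_le.1 (aak_close (a := a) (b := b) hu)).1
    rw [← hB] at h2
    have h3 : 1 ≤ Real.exp (α * u) := Real.one_le_exp (by positivity)
    set E := Real.exp (α * u) with hE
    have hE0 : 0 < E := Real.exp_pos _
    have h4 : u * (7 * (1 + u) + B) ≤ u * (7 * (1 + u) + B) * E :=
      le_mul_of_one_le_right (by positivity) h3
    have h5 : -(((A + C * u) * (2 + 4 * u * (1 + θ * u)) +
        u * (7 * (1 + u) + B)) * E) ≤ aak (SS a b) (Ap a b) 1 u := by linarith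
    have h6 := mul_le_mul_of_nonneg_right (poly_bound hA hC hθ hB0 hu) hE0.le
    rw [hκ]
    simp only [pow_zero, one_mul]
    rw [← hD] at h6
    have h7 : D * (1 + u ^ 3) * E = -(-D * E + -D * (u ^ 3 * E)) := by ring
    linarith
  · unfold PhiF
    refine mul_ne_zero ?_ (small_ne_zero_real (by linarith))
    have := hne (1 + x) (by linarith)
    push_cast at this
    exact this

/-- bounded on bounded intervals -/
theorem hh_bdd {θ : ℝ} (hθ : 0 < θ) (u₀ : ℝ) : ∃ A : ℝ, 0 ≤ A ∧ ∀ u : ℝ, 0 < u → u ≤ u₀ →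
    |HH a b θ u| ≤ A := by
  refine ⟨(∑ p ∈ idx a b (Real.exp u₀), |tp a b p|) * (2 * (|u₀| + 1 / θ) / θ), ?_, ?_⟩
  · refine mul_nonneg (Finset.sum_nonneg fun _ _ => abs_nonneg _) (by positivity)
  intro u hu hu₀
  unfold HH
  refine (Finset.abs_sum_le_sum_abs _ _).trans ?_
  have h1 : ∀ p ∈ idx a b (Real.exp u), |tp a b p * KK θ u (Real.log p)| ≤
      |tp a b p| * (2 * (|u₀| + 1 / θ) / θ) := by
    intro p hp
    have h2 := mem_idx_exp.1 hp
    have h3 := log_pos_of h2.2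
    rw [abs_mul]
    refine mul_le_mul_of_nonneg_left ?_ (abs_nonneg _)
    unfold KK
    rw [abs_div, abs_of_pos hθ]
    refine div_le_div_of_nonneg_right ?_ hθ.le
    refine (abs_sub _ _).trans ?_
    have h4 : u ≤ |u₀| := hu₀.trans (le_abs_self _)
    have h5 : Real.exp (-(θ * (u - Real.log p))) ≤ 1 := expl_le_one hθ h2.1
    have h6 : 0 < 1 / θ := by positivity
    rw [abs_of_nonneg (by positivity), abs_of_nonneg (by positivity)]
    have h7 : (u + 1 / θ) * Real.exp (-(θ * (u - Real.log p))) ≤ (u + 1 / θ) * 1 :=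
      mul_le_mul_of_nonneg_left h5 (by positivity)
    linarith [h2.1]
  refine (Finset.sum_le_sum h1).trans ?_
  rw [← Finset.sum_mul]
  refine mul_le_mul_of_nonneg_right ?_ (by positivity)
  refine Finset.sum_le_sum_of_subset_of_nonneg (fun p hp => ?_) fun _ _ _ => abs_nonneg _
  rw [mem_idx_exp] at hp ⊢
  exact ⟨hp.1.trans hu₀, hp.2⟩

/-- the same from bounds for large `U` -/
theorem no_zeros_of_eventually {F : ℂ → ℂ} (hF : IsLSeries a b F) {θ C α : ℝ} (hθ : 0 < θ)
    (hα : 0 ≤ α)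
    (h : ∀ᶠ u : ℝ in atTop, -(C * Real.exp (α * u)) ≤ HH a b θ u / u) {s : ℂ}
    (hs : 1 + α < s.re) : F s ≠ 0 := by
  obtain ⟨u₀, hu₀⟩ := h.exists_forall_of_atTop
  obtain ⟨A, hA, hA'⟩ := hh_bdd (a := a) (b := b) hθ u₀
  refine no_zeros_of_lower hF (A := A) (C := |C|) hθ hA (abs_nonneg C) hα (fun u hu => ?_) hs
  have h1 : 1 ≤ Real.exp (α * u) := Real.one_le_exp (by positivity)
  have h2 : 0 ≤ A * Real.exp (α * u) := by positivity
  have h3 : 0 ≤ |C| * u * Real.exp (α * u) := by positivity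
  rcases le_total u u₀ with h4 | h4
  · have h5 := (abs_le.1 (hA' u hu h4)).1
    have h6 : A ≤ A * Real.exp (α * u) := le_mul_of_one_le_right hA h1
    linarith
  · have h5 := hu₀ u h4
    rw [le_div_iff₀ hu] at h5
    have h6 : C * Real.exp (α * u) * u ≤ |C| * u * Real.exp (α * u) := by
      have := mul_le_mul_of_nonneg_right (le_abs_self C) (by positivity : 0 ≤ Real.exp (α * u) * u)
      linarith
    linarith

/-- the same from upper bounds for large `U` -/
theorem no_zeros_of_eventually_upper {F : ℂ → ℂ} (hF : IsLSeries a b F) {θ C α : ℝ} (hθ : 0 < θ)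
    (hα : 0 ≤ α) (hne : ∀ x : ℝ, 1 + α < x → F x ≠ 0)
    (h : ∀ᶠ u : ℝ in atTop, HH a b θ u / u ≤ C * Real.exp (α * u)) {s : ℂ}
    (hs : 1 + α < s.re) : F s ≠ 0 := by
  obtain ⟨u₀, hu₀⟩ := h.exists_forall_of_atTop
  obtain ⟨A, hA, hA'⟩ := hh_bdd (a := a) (b := b) hθ u₀
  refine no_zeros_of_upper hF (A := A) (C := |C|) hθ hA (abs_nonneg C) hα hne (fun u hu => ?_) hs
  have h1 : 1 ≤ Real.exp (α * u) := Real.one_le_exp (by positivity)
  have h2 : 0 ≤ A * Real.exp (α * u) := by positivity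
  have h3 : 0 ≤ |C| * u * Real.exp (α * u) := by positivity
  rcases le_total u u₀ with h4 | h4
  · have h5 := (abs_le.1 (hA' u hu h4)).2
    have h6 : A ≤ A * Real.exp (α * u) := le_mul_of_one_le_right hA h1
    linarith
  · have h5 := hu₀ u h4
    rw [div_le_iff₀ hu] at h5
    have h6 : C * Real.exp (α * u) * u ≤ |C| * u * Real.exp (α * u) := by
      have := mul_le_mul_of_nonneg_right (le_abs_self C) (by positivity : 0 ≤ Real.exp (α * u) * u)
      linarith
    linarith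

end Pool.Agent.Q284.B
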