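import Pool.Agent.Q284.B.Taub
import Pool.Agent.Q284.B.Low
import Pool.Agent.Q284.K.Curve
import Pool.Agent.TH941.Newform
import Pool.Agent.H305R2.MertensM

/-!
# The limit of the mean bias under the Riemann hypothesis
-/

set_option autoImplicit false

open MeasureTheory Filter Topology Set Classical
open Pool.Agent.W263.BSD
open Pool.Agent.Q284.K (idx mem_idx_exp mem_idx)
open Pool.Agent.TH941 (cr Belongs Hecke gg)
open CongruenceSubgroup UpperHalfPlane
open scoped MatrixGroups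

namespace Pool.Agent.Q284.B

variable {a b : ℤ}

/-! ### the theorem of Mertens -/

theorem log_floor {v : ℝ} (hv : 2 ≤ v) : v - 1 ≤ Real.log ⌊Real.exp v⌋₊ ∧
    Real.log ⌊Real.exp v⌋₊ ≤ v := by
  have hexp2 : 4 ≤ Real.exp v := by
    have e1 := Real.exp_one_gt_d9
    have e2 : Real.exp 2 ≤ Real.exp v := Real.exp_le_exp.mpr hv
    have e3 : Real.exp 2 = Real.exp 1 * Real.exp 1 := by rw [← Real.exp_add]; norm_num
    nlinarith
  have ha1 : Real.exp v / 2 ≤ ⌊Real.exp v⌋₊ := by
    have := Nat.sub_one_lt_floor (Real.exp v)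
    linarith
  have ha0 : (0 : ℝ) < ⌊Real.exp v⌋₊ := by linarith
  constructor
  · have e1 : Real.log (Real.exp v / 2) ≤ Real.log ⌊Real.exp v⌋₊ :=
      Real.log_le_log (by positivity) ha1
    rw [Real.log_div (Real.exp_pos _).ne' (by norm_num), Real.log_exp] at e1
    have := Real.log_two_lt_d9
    linarith
  · rw [Real.log_le_iff_le_exp ha0]
    exact Nat.floor_le (Real.exp_pos _).le

theorem mertens_exp : ∃ M : ℝ, Tendsto (fun l : ℝ =>
    (∑ n ∈ Finset.range (⌊Real.exp l⌋₊ + 1), if n.Prime then (1 : ℝ) / n else 0) - Real.log l)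
    atTop (𝓝 M) := by
  obtain ⟨M, hM⟩ := Pool.Agent.H305R2.mertens_inv_tendsto
  refine ⟨M, ?_⟩
  have hN : Tendsto (fun l : ℝ => ⌊Real.exp l⌋₊) atTop atTop :=
    tendsto_nat_floor_atTop.comp Real.tendsto_exp_atTop
  have h1 := hM.comp hN
  have h2 : Tendsto (fun l : ℝ => Real.log (Real.log ⌊Real.exp l⌋₊ / l)) atTop (𝓝 0) := by
    have h3 : Tendsto (fun l : ℝ => Real.log ⌊Real.exp l⌋₊ / l) atTop (𝓝 1) := by
      have h4 : Tendsto (fun l : ℝ => 1 - 1 / l) atTop (𝓝 (1 - 0)) :=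
        (tendsto_const_nhds.div_atTop tendsto_id).const_sub 1
      rw [sub_zero] at h4
      refine tendsto_of_tendsto_of_tendsto_of_le_of_le' h4 tendsto_const_nhds ?_ ?_
      · filter_upwards [eventually_ge_atTop 2] with l hl
        have h5 := (log_floor hl).1
        have hl0 : 0 < l := by linarith
        rw [le_div_iff₀ hl0]
        have : (1 - 1 / l) * l = l - 1 := by field_simp
        linarith
      · filter_upwards [eventually_ge_atTop 2] with l hl
        have h5 := (log_floor hl).2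
        have hl0 : 0 < l := by linarith
        rw [div_le_one hl0]
        exact h5
    have h4 := h3.log one_ne_zero
    rwa [Real.log_one] at h4
  have h3 := h1.add h2
  rw [add_zero] at h3
  refine h3.congr' ?_
  filter_upwards [eventually_ge_atTop 2] with l hl
  have hl0 : 0 < l := by linarith
  have h5 : 0 < Real.log ⌊Real.exp l⌋₊ := by linarith [(log_floor hl).1]
  simp only [Function.comp_apply]
  rw [Real.log_div h5.ne' hl0.ne']
  have h6 : ∑ p ∈ (Finset.Icc 1 ⌊Real.exp l⌋₊).filter Nat.Prime, (1 : ℝ) / p =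
      ∑ n ∈ Finset.range (⌊Real.exp l⌋₊ + 1), if n.Prime then (1 : ℝ) / n else 0 := by
    rw [← Finset.sum_filter]
    refine Finset.sum_congr ?_ fun _ _ => rfl
    ext p
    simp only [Finset.mem_filter, Finset.mem_Icc, Finset.mem_range]
    constructor
    · rintro ⟨⟨_, h7⟩, h8⟩
      exact ⟨by omega, h8⟩
    · rintro ⟨h7, h8⟩
      exact ⟨⟨h8.one_le, by omega⟩, h8⟩
  rw [h6]
  ring

/-! ### the sum of `a_p / p` and the logarithm of the product -/

variable {N : ℕ} {f : CuspForm (Gamma0 N : Subgroup (GL (Fin 2) ℝ)) 2}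

/-- the terms of `∑ a_p / p + log P` -/
noncomputable def XX (a b : ℤ) (n : ℕ) : ℝ :=
  if GoodPrime a b n then tp a b n + Pool.Agent.Q284.K.g a b n else 0

theorem beta_add_G (l : ℝ) : bet a b l + Pool.Agent.Q284.K.G a b l =
    ∑ n ∈ Finset.range (⌊Real.exp l⌋₊ + 1), XX a b n := by
  rw [Pool.Agent.Q284.K.G_eq]
  unfold bet XX
  rw [← Finset.sum_add_distrib]
  unfold Pool.Agent.Q284.K.idx
  rw [Finset.sum_filter]

/-- the summable part -/
noncomputable def YY (a b : ℤ) (f : CuspForm (Gamma0 N : Subgroup (GL (Fin 2) ℝ)) 2) (n : ℕ) : ℝ :=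
  XX a b n - (1 / 2) * (if n.Prime then (1 : ℝ) / n else 0) + (1 / 2) * cr f n

theorem yy_summable (hΔ : 4 * a ^ 3 + 27 * b ^ 2 ≠ 0) (hb : Belongs a b f) :
    Summable (YY a b f) := by
  obtain ⟨D, hD⟩ := good_of_large hΔ
  have h1 : Summable fun n : ℕ => 30 * (n : ℝ) ^ (-(3 / 2) : ℝ) :=
    (Real.summable_nat_rpow.mpr (by norm_num)).mul_left _
  refine Summable.of_norm_bounded_eventually_nat h1 ?_
  filter_upwards [eventually_gt_atTop (max D 25)] with n hn
  have hnD : D < n := (le_max_left _ _).trans_lt hn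
  have hn25 : 25 < n := (le_max_right _ _).trans_lt hn
  by_cases hp : n.Prime
  · have hg := hD n hp hnD
    have hS : n ∈ SS a b := ⟨hg, hn25.le⟩
    have hn0 : (n : ℝ) ≠ 0 := by exact_mod_cast hp.ne_zero
    have h2 : YY a b f n = tp a b n + cc (Ap a b) n - mm (Ap a b) n := by
      unfold YY XX cr gg
      rw [if_pos hg, if_pos hp, if_pos hp, hb n hg, cc_eq_lp (by omega)]
      have h4 : ‖(n : ℂ) - (pointCount a b n : ℂ)‖ ^ 2 = ((n : ℝ) - pointCount a b n) ^ 2 := by
        have : (n : ℂ) - (pointCount a b n : ℂ) = (((n : ℝ) - pointCount a b n : ℝ) : ℂ) := by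
          push_cast; ring
        rw [this, Complex.norm_real, Real.norm_eq_abs, sq_abs]
      rw [h4]
      unfold mm tp Pool.Agent.W263.BSD.lp Pool.Agent.Q284.K.g tt Ap
      rw [dl_sq (by omega)]
      field_simp
      ring
    rw [h2, Real.norm_eq_abs, ← dl_cube (by omega)]
    exact main_close hS
  · have h2 : YY a b f n = 0 := by
      unfold YY XX cr
      rw [if_neg fun h => hp h.1, if_neg hp, if_neg hp]
      ring
    rw [h2, norm_zero]
    positivity

/-- `∑_{p ≤ e^l} a_p / p + log P(e^l) - (log l)/2` converges -/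
theorem beta_G (hΔ : 4 * a ^ 3 + 27 * b ^ 2 ≠ 0) (hf : Hecke f) [NeZero N] (hb : Belongs a b f) :
    ∃ κ : ℝ, Tendsto (fun l : ℝ => bet a b l + Pool.Agent.Q284.K.G a b l - 1 / 2 * Real.log l) atTop
      (𝓝 κ) := by
  obtain ⟨M, hM⟩ := mertens_exp
  obtain ⟨C, hC⟩ := hf.cr_limit
  have h1 := stp_tendsto hf.ps hC
  have h2 := (yy_summable hΔ hb).hasSum.tendsto_sum_nat
  have hN : Tendsto (fun l : ℝ => ⌊Real.exp l⌋₊ + 1) atTop atTop :=
    (tendsto_add_atTop_nat 1).comp (tendsto_nat_floor_atTop.comp Real.tendsto_exp_atTop)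
  have h3 := h2.comp hN
  refine ⟨_, ((h3.add (hM.const_mul (1 / 2))).sub (h1.const_mul (1 / 2))).congr fun l => ?_⟩
  rw [beta_add_G]
  simp only [Function.comp_apply]
  unfold stp
  have h4 : ∑ n ∈ Finset.range (⌊Real.exp l⌋₊ + 1), YY a b f n =
      ∑ n ∈ Finset.range (⌊Real.exp l⌋₊ + 1), XX a b n -
        1 / 2 * (∑ n ∈ Finset.range (⌊Real.exp l⌋₊ + 1), if n.Prime then (1 : ℝ) / n else 0) +
        1 / 2 * ∑ n ∈ Finset.range (⌊Real.exp l⌋₊ + 1), cr f n := by
    unfold YY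
    rw [Finset.sum_add_distrib, Finset.sum_sub_distrib, Finset.mul_sum, Finset.mul_sum]
  rw [h4]
  ring

/-! ### local integrability -/

theorem bet_loc (U : ℝ) : IntegrableOn (bet a b) (Ioc 1 U) := by
  rcases le_or_gt U 1 with h | h
  · rw [Ioc_eq_empty (by linarith)]
    exact integrableOn_empty
  · have h1 := bet_int (a := a) (b := b) (by linarith : 0 ≤ U)
    rw [intervalIntegrable_iff_integrableOn_Ioc_of_le (by linarith)] at h1
    exact h1.mono_set (Ioc_subset_Ioc_left zero_le_one)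

theorem G_loc (U : ℝ) : IntegrableOn (Pool.Agent.Q284.K.G a b) (Ioc 1 U) := by
  rcases le_or_gt U 1 with h | h
  · rw [Ioc_eq_empty (by linarith)]
    exact integrableOn_empty
  · have h1 := idx_int (a := a) (b := b) (by linarith : 0 ≤ U)
      (f := fun p _ => Pool.Agent.Q284.K.g a b p) fun _ _ => continuousOn_const
    rw [intervalIntegrable_iff_integrableOn_Ioc_of_le (by linarith)] at h1
    have h2 : (fun u => ∑ p ∈ idx a b (Real.exp u), Pool.Agent.Q284.K.g a b p) =
        Pool.Agent.Q284.K.G a b := by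
      funext u
      rw [Pool.Agent.Q284.K.G_eq]
    rw [h2] at h1
    exact h1.mono_set (Ioc_subset_Ioc_left zero_le_one)

theorem log_loc (U : ℝ) : IntegrableOn Real.log (Ioc 1 U) := by
  rcases le_or_gt U 1 with h | h
  · rw [Ioc_eq_empty (by linarith)]
    exact integrableOn_empty
  · rw [← intervalIntegrable_iff_integrableOn_Ioc_of_le h.le]
    exact intervalIntegral.intervalIntegrable_log'

theorem const_loc (c U : ℝ) : IntegrableOn (fun _ : ℝ => c) (Ioc 1 U) :=
  integrableOn_const (by simp)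

/-! ### substitution -/

theorem exp_image_Ioc (V : ℝ) : Real.exp '' Ioc 1 V = Ioc (Real.exp 1) (Real.exp V) := by
  ext x
  simp only [mem_image, mem_Ioc]
  constructor
  · rintro ⟨v, ⟨h3, h4⟩, rfl⟩
    exact ⟨Real.exp_lt_exp.2 h3, Real.exp_le_exp.2 h4⟩
  · rintro ⟨h3, h4⟩
    have hx : 0 < x := (Real.exp_pos 1).trans h3
    refine ⟨Real.log x, ⟨?_, ?_⟩, Real.exp_log hx⟩
    · rwa [Real.lt_log_iff_exp_lt hx]
    · rwa [Real.log_le_iff_le_exp hx]

theorem exp_image_Ioi : Real.exp '' Ioi 1 = Ioi (Real.exp 1) := by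
  ext x
  simp only [mem_image, mem_Ioi]
  constructor
  · rintro ⟨v, h3, rfl⟩
    exact Real.exp_lt_exp.2 h3
  · intro h3
    have hx : 0 < x := (Real.exp_pos 1).trans h3
    exact ⟨Real.log x, by rwa [Real.lt_log_iff_exp_lt hx], Real.exp_log hx⟩

theorem aesm_exp {f : ℝ → ℝ} (hf : Pool.Agent.TH270.MS.BM f) (U : ℝ) :
    AEStronglyMeasurable (fun l => f (Real.exp l)) (volume.restrict (Ioc 1 U)) := by
  obtain ⟨M, hM⟩ := hf.2 (Real.exp U)
  have h1 : IntegrableOn f (Ioc (Real.exp 1) (Real.exp U)) := by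
    refine Integrable.of_bound (hf.1.mono_set Ioc_subset_Ioi_self) M ?_
    refine (ae_restrict_iff' measurableSet_Ioc).2 (Eventually.of_forall fun x hx => ?_)
    exact hM x hx.1.le hx.2
  rw [← exp_image_Ioc, integrableOn_image_iff_integrableOn_abs_deriv_smul measurableSet_Ioc
    (fun v _ => (Real.hasDerivAt_exp v).hasDerivWithinAt) Real.exp_injective.injOn] at h1
  have h2 := h1.aestronglyMeasurable
  have h3 : AEStronglyMeasurable (fun l : ℝ => Real.exp (-l)) (volume.restrict (Ioc 1 U)) :=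
    (by fun_prop : Continuous fun l : ℝ => Real.exp (-l)).aestronglyMeasurable
  refine (h3.mul h2).congr (Eventually.of_forall fun l => ?_)
  simp only [Pi.mul_apply, smul_eq_mul]
  rw [abs_of_pos (Real.exp_pos l), ← mul_assoc, ← Real.exp_add]
  simp

theorem sq_exp {f : ℝ → ℝ} (h : IntegrableOn (fun x : ℝ => f x ^ 2 / x) (Ioi (Real.exp 1))) :
    IntegrableOn (fun l => f (Real.exp l) ^ 2) (Ioi 1) := by
  rw [← exp_image_Ioi, integrableOn_image_iff_integrableOn_abs_deriv_smul measurableSet_Ioi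
    (fun v _ => (Real.hasDerivAt_exp v).hasDerivWithinAt) Real.exp_injective.injOn] at h
  refine h.congr_fun (fun l _ => ?_) measurableSet_Ioi
  simp only [smul_eq_mul]
  rw [abs_of_pos (Real.exp_pos l)]
  have := (Real.exp_pos l).ne'
  field_simp

/-! ### the limit -/

/-- the deviation of `log P(e^l)` is small in the mean -/
theorem dev_sm {F : ℂ → ℂ} (hΔ : 4 * a ^ 3 + 27 * b ^ 2 ≠ 0) (hF : IsLSeries a b F)
    (hrs : Tendsto (rsSum a b) atTop (𝓝 0)) {η C₀ : ℝ} {κ : ℕ} (hη : 0 < η)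
    (hg : ∀ s : ℂ, 1 - η < s.re → ‖F s‖ ≤ C₀ * (1 + ‖s‖) ^ κ)
    {m : ℕ} (hm : analyticOrderAt F 1 = m) (hne : ∀ s : ℂ, 1 < s.re → F s ≠ 0) :
    Sm fun l => Pool.Agent.Q284.K.G a b l - m * Real.log l - Real.log (Pool.Agent.Q284.K.TG F m) := by
  have hT := Pool.Agent.Q284.K.TG_pos hF hm
  set T := Pool.Agent.Q284.K.TG F m with hTdef
  have t := (Pool.Agent.TH270.MS.EQ.curve_law hΔ hF hrs hη hg (m : ℝ) hT).out 0 3
  have h1 := t.1 ⟨hne, m, rfl, hm, Pool.Agent.Q284.K.lead_real hF hm hne⟩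
  set dS : ℝ → ℝ := fun l => Pool.Agent.TH270.MS.EQ.devStar a b m T (Real.exp l) with hdS
  have s1 : Sm dS := sm_of_sq (aesm_exp (Pool.Agent.TH270.MS.EQ.bm_devStar a b hT)) (sq_exp h1)
  set D : ℝ → ℝ := fun l => Pool.Agent.Q284.K.G a b l - m * Real.log l - Real.log T with hD
  have hDl : ∀ U : ℝ, IntegrableOn D (Ioc 1 U) := fun U =>
    ((G_loc U).sub ((log_loc U).const_mul _)).sub (const_loc _ U)
  have s2 : Sm fun l => D l - dS l := by
    refine sm_of_tendsto (fun U => (hDl U).sub (s1.loc U)) ?_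
    have h2 := ((Pool.Agent.TH270.MS.EQ.corr_lim hΔ hrs).comp Real.tendsto_exp_atTop).const_sub
      (-(Real.log 2 / 2))
    rw [sub_self] at h2
    refine h2.congr' ?_
    filter_upwards [eventually_ge_atTop 1] with l hl
    have hl' : Real.exp 1 ≤ Real.exp l := Real.exp_le_exp.2 hl
    rw [hD, hdS]
    simp only [Function.comp_apply]
    rw [Pool.Agent.TH270.MS.EQ.devStar_eq hT hl', Real.log_exp]
    unfold Pool.Agent.Q284.K.G
    ring
  have s3 := s1.add s2
  have e1 : (fun l => dS l + (D l - dS l)) = D := by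
    funext l
    ring
  rw [e1] at s3
  exact s3

theorem bet_head : ∃ M : ℝ, ∀ l ∈ Ioc (0 : ℝ) 1, |bet a b l| ≤ M := by
  refine ⟨∑ p ∈ idx a b (Real.exp 1), |tp a b p|, fun l hl => ?_⟩
  unfold bet
  refine (Finset.abs_sum_le_sum_abs _ _).trans ?_
  refine Finset.sum_le_sum_of_subset_of_nonneg (fun p hp => ?_) fun _ _ _ => abs_nonneg _
  rw [mem_idx_exp] at hp ⊢
  exact ⟨hp.1.trans hl.2, hp.2⟩

/-- **The mean bias under the Riemann hypothesis.** -/
theorem hh_limit {F : ℂ → ℂ} (hΔ : 4 * a ^ 3 + 27 * b ^ 2 ≠ 0) (hF : IsLSeries a b F)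
    [NeZero N] (hf : Hecke f) (hb : Belongs a b f) {η C₀ : ℝ} {κ : ℕ} (hη : 0 < η)
    (hg : ∀ s : ℂ, 1 - η < s.re → ‖F s‖ ≤ C₀ * (1 + ‖s‖) ^ κ)
    {m : ℕ} (hm : analyticOrderAt F 1 = m) (hne : ∀ s : ℂ, 1 < s.re → F s ≠ 0) {θ : ℝ}
    (hθ : 0 < θ) :
    Tendsto (fun U : ℝ => HH a b θ U / U) atTop (𝓝 ((1 / 2 - m) / θ)) := by
  have hrs := hf.rsSum_tendsto hΔ hb
  obtain ⟨K, hK⟩ := beta_G hΔ hf hb
  obtain ⟨M, hM⟩ := bet_head (a := a) (b := b)
  have s1 := dev_sm hΔ hF hrs hη hg hm hne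
  set T := Pool.Agent.Q284.K.TG F m with hTdef
  set e1 : ℝ → ℝ := fun l => bet a b l + Pool.Agent.Q284.K.G a b l - 1 / 2 * Real.log l - K with he1
  have s2 : Sm e1 := by
    refine sm_of_tendsto (fun U => ?_) ?_
    · exact (((bet_loc U).add (G_loc U)).sub ((log_loc U).const_mul _)).sub (const_loc _ U)
    · have := hK.sub_const K
      rwa [sub_self] at this
  have s3 := s2.add s1.neg
  have h1 := tt_main (β := bet a b) (c := 1 / 2 - m) (c' := K - Real.log T) (M := M)
    (fun U => by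
      rcases le_total 0 U with h | h
      · exact bet_int h
      · have h2 := bet_int (a := a) (b := b) (U := 0) le_rfl
        refine IntervalIntegrable.symm ?_
        rw [intervalIntegrable_iff_integrableOn_Ioc_of_le h]
        have h3 : IntegrableOn (fun _ : ℝ => (0 : ℝ)) (Ioc U 0) := integrableOn_zero
        refine h3.congr_fun (fun u hu => ?_) measurableSet_Ioc
        simp only
        unfold bet
        rw [idx_empty (by linarith [hu.2]), Finset.sum_empty]) hM s3 (fun l _ => by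
      rw [he1]
      ring) hθ
  refine h1.congr' ?_
  filter_upwards [eventually_ge_atTop 0] with U hU
  exact tt_bet hθ hU

end Pool.Agent.Q284.B
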