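import Pool.Agent.Q284.K.Abel
import Pool.Agent.Q284.B.Conv

/-!
# Partial summation for the smoothed averages of `∑_{p ≤ e^l} a_p / p`
-/

set_option autoImplicit false

open MeasureTheory Filter Topology Set Classical
open Pool.Agent.W263.BSD
open Pool.Agent.Q284.K (idx mem_idx_exp mem_idx)

namespace Pool.Agent.Q284.B

variable {a b : ℤ}

theorem log_pos_of {p : ℕ} (h : GoodPrime a b p) : 0 < Real.log p :=
  Real.log_pos (by exact_mod_cast h.1.one_lt)

/-- a sum over the good primes up to `e^u` as a fixed sum -/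
theorem idx_sum {f : ℕ → ℝ → ℝ} {u U : ℝ} (hu : u ≤ U) :
    ∑ p ∈ idx a b (Real.exp u), f p u =
      ∑ p ∈ idx a b (Real.exp U), (Icc (Real.log p) U).indicator (f p) u := by
  have h1 : ∀ p ∈ idx a b (Real.exp U), (Icc (Real.log p) U).indicator (f p) u =
      if Real.log p ≤ u then f p u else 0 := by
    intro p _
    rw [indicator_apply]
    refine if_congr ?_ rfl rfl
    simp only [mem_Icc]
    exact ⟨fun h => h.1, fun h => ⟨h, hu⟩⟩
  rw [Finset.sum_congr rfl h1, ← Finset.sum_filter]
  refine Finset.sum_congr ?_ fun _ _ => rfl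
  ext p
  rw [Finset.mem_filter, mem_idx_exp, mem_idx_exp]
  constructor
  · rintro ⟨h1, h2⟩
    exact ⟨⟨h1.trans hu, h2⟩, h1⟩
  · rintro ⟨⟨_, h2⟩, h1⟩
    exact ⟨h1, h2⟩

theorem ind_integrable' {f : ℝ → ℝ} {l U : ℝ} (hf : ContinuousOn f (Icc l U)) :
    IntegrableOn ((Icc l U).indicator f) (Ioc 0 U) := by
  have h1 : Integrable ((Icc l U).indicator f) :=
    (integrable_indicator_iff measurableSet_Icc).2 (hf.integrableOn_Icc)
  exact h1.integrableOn

theorem idx_int {f : ℕ → ℝ → ℝ} {U : ℝ} (hU : 0 ≤ U)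
    (hf : ∀ p : ℕ, GoodPrime a b p → ContinuousOn (f p) (Icc (Real.log p) U)) :
    IntervalIntegrable (fun u => ∑ p ∈ idx a b (Real.exp u), f p u) volume 0 U := by
  rw [intervalIntegrable_iff_integrableOn_Ioc_of_le hU]
  have h1 : IntegrableOn (fun u => ∑ p ∈ idx a b (Real.exp U),
      (Icc (Real.log p) U).indicator (f p) u) (Ioc 0 U) :=
    integrable_finsetSum _ fun p hp => ind_integrable' (hf p (mem_idx_exp.1 hp).2)
  exact h1.congr_fun (fun u hu => (idx_sum hu.2).symm) measurableSet_Ioc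

theorem idx_integral {f : ℕ → ℝ → ℝ} {U : ℝ} (hU : 0 ≤ U)
    (hf : ∀ p : ℕ, GoodPrime a b p → ContinuousOn (f p) (Icc (Real.log p) U)) :
    ∫ u in (0 : ℝ)..U, ∑ p ∈ idx a b (Real.exp u), f p u =
      ∑ p ∈ idx a b (Real.exp U), ∫ u in Real.log p..U, f p u := by
  rw [intervalIntegral.integral_of_le hU,
    setIntegral_congr_fun measurableSet_Ioc (fun u hu => idx_sum (a := a) (b := b) (f := f) hu.2),
    integral_finsetSum _ fun p hp => ind_integrable' (hf p (mem_idx_exp.1 hp).2)]
  refine Finset.sum_congr rfl fun p hp => ?_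
  have h1 := mem_idx_exp.1 hp
  have h2 := log_pos_of h1.2
  rw [setIntegral_indicator measurableSet_Icc]
  have h3 : Ioc 0 U ∩ Icc (Real.log p) U = Icc (Real.log p) U := by
    ext u
    simp only [mem_inter_iff, mem_Ioc, mem_Icc]
    constructor
    · rintro ⟨_, h⟩
      exact h
    · rintro ⟨h4, h5⟩
      exact ⟨⟨by linarith, h5⟩, h4, h5⟩
  rw [h3, integral_Icc_eq_integral_Ioc, ← intervalIntegral.integral_of_le h1.1]

/-- `a_p / p` -/
noncomputable def tp (a b : ℤ) (p : ℕ) : ℝ := ((p : ℝ) - pointCount a b p) / p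

/-- `∑_{p ≤ e^l} a_p / p` -/
noncomputable def bet (a b : ℤ) (l : ℝ) : ℝ := ∑ p ∈ idx a b (Real.exp l), tp a b p

/-- `∫_l^U u e^{-θ (u - l)} du` -/
noncomputable def KK (θ U l : ℝ) : ℝ :=
  ((l + 1 / θ) - (U + 1 / θ) * Real.exp (-(θ * (U - l)))) / θ

/-- `∑_{p ≤ e^U} (a_p / p) ∫_{log p}^U u e^{-θ (u - log p)} du` -/
noncomputable def HH (a b : ℤ) (θ U : ℝ) : ℝ :=
  ∑ p ∈ idx a b (Real.exp U), tp a b p * KK θ U (Real.log p)

/-- `∑_{p ≤ e^U} (a_p / p) (U - log p)` -/
noncomputable def RR (a b : ℤ) (U : ℝ) : ℝ :=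
  ∑ p ∈ idx a b (Real.exp U), tp a b p * (U - Real.log p)

section

variable {θ U : ℝ}

theorem hasDeriv_arg (θ l u : ℝ) : HasDerivAt (fun u : ℝ => -(θ * (u - l))) (-θ) u := by
  have h3 : HasDerivAt (fun u : ℝ => -θ * u + θ * l) (-θ) u := by
    simpa using ((hasDerivAt_id u).const_mul (-θ)).add_const (θ * l)
  have e1 : (fun u : ℝ => -(θ * (u - l))) = fun u : ℝ => -θ * u + θ * l := by
    funext u
    ring
  rw [e1]
  exact h3

theorem kk_deriv (hθ : 0 < θ) (l u : ℝ) :
    HasDerivAt (fun u => KK θ u l) (u * Real.exp (-(θ * (u - l)))) u := by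
  unfold KK
  have h1 := (hasDeriv_arg θ l u).exp
  have h2 : HasDerivAt (fun u : ℝ => u + 1 / θ) 1 u := by
    simpa using (hasDerivAt_id u).add_const (1 / θ)
  have h3 := (((h2.mul h1).const_sub (l + 1 / θ)).div_const θ)
  refine h3.congr_deriv ?_
  field_simp
  ring

theorem kk_self (l : ℝ) : KK θ l l = 0 := by
  unfold KK
  simp

theorem kk_int (hθ : 0 < θ) (l U : ℝ) :
    ∫ u in l..U, u * Real.exp (-(θ * (u - l))) = KK θ U l := by
  rw [intervalIntegral.integral_eq_sub_of_hasDerivAt (fun u _ => kk_deriv hθ l u)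
    ((by fun_prop : Continuous fun u : ℝ => u * Real.exp (-(θ * (u - l)))).intervalIntegrable _ _),
    kk_self, sub_zero]

theorem kk_cont (θ l : ℝ) : Continuous fun u => KK θ u l := by
  unfold KK
  fun_prop

/-- the two formulas for `HH` -/
theorem hh_eq_tt (hθ : 0 < θ) (hU : 0 ≤ U) :
    ∫ u in (0 : ℝ)..U, ker θ U u * bet a b u = θ * HH a b θ U := by
  have h1 : (fun u => ker θ U u * bet a b u) = fun u =>
      ∑ p ∈ idx a b (Real.exp u), tp a b p * ker θ U u := by
    funext u
    unfold bet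
    rw [Finset.mul_sum]
    exact Finset.sum_congr rfl fun _ _ => mul_comm _ _
  rw [h1, idx_integral hU (f := fun p u => tp a b p * ker θ U u) fun p _ =>
    (continuous_const.mul (ker_cont θ U)).continuousOn]
  unfold HH
  rw [Finset.mul_sum]
  refine Finset.sum_congr rfl fun p _ => ?_
  rw [intervalIntegral.integral_const_mul]
  unfold ker
  rw [intervalIntegral.integral_sub (Continuous.intervalIntegrable (by fun_prop) _ _)
    intervalIntegrable_const, intervalIntegral.integral_const_mul, exp_int hθ,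
    intervalIntegral.integral_const, smul_eq_mul, mul_one]
  unfold KK
  field_simp
  ring

theorem tt_bet (hθ : 0 < θ) (hU : 0 ≤ U) : TT θ (bet a b) 0 U = HH a b θ U / U := by
  unfold TT
  rw [hh_eq_tt hθ hU]
  exact mul_div_mul_left _ _ hθ.ne'

theorem bet_int (hU : 0 ≤ U) : IntervalIntegrable (bet a b) volume 0 U :=
  idx_int hU (f := fun p _ => tp a b p) fun _ _ => continuousOn_const

/-- `R_1(U) = H(U)/U + (1 + θ U) ∫_0^U H(u)/u² du` -/
theorem rr_eq (hθ : 0 < θ) (hU : 0 < U) :
    RR a b U = HH a b θ U / U + (1 + θ * U) * ∫ u in (0 : ℝ)..U, HH a b θ u / u ^ 2 := by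
  have h1 : (fun u => HH a b θ u / u ^ 2) = fun u =>
      ∑ p ∈ idx a b (Real.exp u), tp a b p * (KK θ u (Real.log p) / u ^ 2) := by
    funext u
    unfold HH
    rw [Finset.sum_div]
    exact Finset.sum_congr rfl fun _ _ => mul_div_assoc _ _ _
  rw [h1, idx_integral hU.le (f := fun p u => tp a b p * (KK θ u (Real.log p) / u ^ 2)) fun p hp => by
    refine continuousOn_const.mul ((kk_cont θ _).continuousOn.div (by fun_prop) fun u hu => ?_)
    have := log_pos_of hp
    have h2 : 0 < u := this.trans_le hu.1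
    positivity]
  unfold RR HH
  rw [Finset.sum_div, Finset.mul_sum, ← Finset.sum_add_distrib]
  refine Finset.sum_congr rfl fun p hp => ?_
  have h3 := mem_idx_exp.1 hp
  have h4 := log_pos_of h3.2
  rw [intervalIntegral.integral_const_mul]
  set l : ℝ := Real.log p with hl
  have h5 : ∫ u in l..U, KK θ u l / u ^ 2 = -KK θ U l / U + (1 - Real.exp (-(θ * (U - l)))) / θ := by
    have hd : ∀ u ∈ uIcc l U, HasDerivAt
        (fun u => -KK θ u l / u + (1 - Real.exp (-(θ * (u - l)))) / θ) (KK θ u l / u ^ 2) u := by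
      intro u hu
      rw [uIcc_of_le h3.1] at hu
      have hu0 : 0 < u := h4.trans_le hu.1
      have h6 := ((kk_deriv hθ l u).neg.div (hasDerivAt_id u) hu0.ne').add
        (((hasDeriv_arg θ l u).exp.const_sub 1).div_const θ)
      refine h6.congr_deriv ?_
      simp only [id, Pi.neg_apply]
      field_simp
      ring
    rw [intervalIntegral.integral_eq_sub_of_hasDerivAt hd, kk_self]
    · simp
    · refine ContinuousOn.intervalIntegrable ?_
      rw [uIcc_of_le h3.1]
      refine (kk_cont θ _).continuousOn.div (by fun_prop) fun u hu => ?_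
      have h2 : 0 < u := h4.trans_le hu.1
      positivity
  rw [h5]
  have h6 : U - l = KK θ U l / U + (1 + θ * U) * (-KK θ U l / U + (1 - Real.exp (-(θ * (U - l)))) / θ) := by
    unfold KK
    field_simp
    ring
  have h7 : tp a b p * (U - l) = tp a b p * (KK θ U l / U + (1 + θ * U) * (-KK θ U l / U +
    (1 - Real.exp (-(θ * (U - l)))) / θ)) := by rw [← h6]
  rw [h7]
  ring

theorem idx_empty {u : ℝ} (hu : u < 1 / 2) : idx a b (Real.exp u) = ∅ := by
  rw [Finset.eq_empty_iff_forall_notMem]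
  intro p hp
  have h1 := mem_idx_exp.1 hp
  have h2 : Real.log 2 ≤ Real.log p := Real.log_le_log two_pos (by exact_mod_cast h1.2.1.two_le)
  have h3 := Real.log_two_gt_d9
  linarith [h1.1]

theorem hh_int (hU : 0 < U) :
    IntervalIntegrable (fun u => HH a b θ u / u ^ 2) volume 0 U := by
  have h1 : (fun u => HH a b θ u / u ^ 2) = fun u =>
      ∑ p ∈ idx a b (Real.exp u), tp a b p * (KK θ u (Real.log p) / u ^ 2) := by
    funext u
    unfold HH
    rw [Finset.sum_div]
    exact Finset.sum_congr rfl fun _ _ => mul_div_assoc _ _ _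
  rw [h1]
  refine idx_int hU.le (f := fun p u => tp a b p * (KK θ u (Real.log p) / u ^ 2)) fun p hp => ?_
  refine continuousOn_const.mul ((kk_cont θ _).continuousOn.div (by fun_prop) fun u hu => ?_)
  have := log_pos_of hp
  have h2 : 0 < u := this.trans_le hu.1
  positivity

/-- **lower bounds for the mean bias give lower bounds for `R_1`** -/
theorem rr_lower {A C α : ℝ} (hA : 0 ≤ A) (hC : 0 ≤ C) (hα : 0 ≤ α) (hθ : 0 < θ)
    (h : ∀ u : ℝ, 0 < u → -((A + C * u) * Real.exp (α * u)) ≤ HH a b θ u) (hU : 0 < U) :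
    -((A + C * U) * (2 + 4 * U * (1 + θ * U)) * Real.exp (α * U)) ≤ RR a b U := by
  rcases lt_or_ge U (1 / 2) with h1 | h1
  · unfold RR
    rw [idx_empty h1, Finset.sum_empty]
    have : 0 ≤ (A + C * U) * (2 + 4 * U * (1 + θ * U)) * Real.exp (α * U) := by positivity
    linarith
  · rw [rr_eq hθ hU]
    set E : ℝ := (A + C * U) * Real.exp (α * U) with hE
    have hE0 : 0 ≤ E := by positivity
    have h2 : -(2 * E) ≤ HH a b θ U / U := by
      rw [le_div_iff₀ hU]
      have := h U hU
      nlinarith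
    have h3 : ∀ u ∈ Ioc 0 U, -(4 * E) ≤ HH a b θ u / u ^ 2 := by
      intro u hu
      rcases lt_or_ge u (1 / 2) with h4 | h4
      · unfold HH
        rw [idx_empty h4, Finset.sum_empty, zero_div]
        linarith
      · have hu0 : 0 < u := hu.1
        rw [le_div_iff₀ (by positivity)]
        have h5 := h u hu0
        have h6 : (A + C * u) * Real.exp (α * u) ≤ E := by
          rw [hE]
          have h7 : Real.exp (α * u) ≤ Real.exp (α * U) :=
            Real.exp_le_exp.2 (mul_le_mul_of_nonneg_left hu.2 hα)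
          have h8 : C * u ≤ C * U := mul_le_mul_of_nonneg_left hu.2 hC
          exact mul_le_mul (by linarith) h7 (Real.exp_pos _).le (by positivity)
        have h7 : (1 : ℝ) / 4 ≤ u ^ 2 := by nlinarith
        nlinarith
    have h4 : -(4 * E) * U ≤ ∫ u in (0 : ℝ)..U, HH a b θ u / u ^ 2 := by
      have h5 : ∫ _ in (0 : ℝ)..U, -(4 * E) ≤ ∫ u in (0 : ℝ)..U, HH a b θ u / u ^ 2 := by
        refine intervalIntegral.integral_mono_on_of_le_Ioo hU.le intervalIntegrable_const
          (hh_int hU) fun u hu => h3 u ⟨hu.1, hu.2.le⟩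
      rw [intervalIntegral.integral_const, smul_eq_mul, sub_zero] at h5
      linarith
    have h5 : 0 ≤ 1 + θ * U := by positivity
    have h6 := mul_le_mul_of_nonneg_left h4 h5
    have h7 : -((A + C * U) * (2 + 4 * U * (1 + θ * U)) * Real.exp (α * U)) =
        -(2 * E) + (1 + θ * U) * (-(4 * E) * U) := by
      rw [hE]
      ring
    rw [h7]
    linarith

/-- **upper bounds for the mean bias give upper bounds for `R_1`** -/
theorem rr_upper {A C α : ℝ} (hA : 0 ≤ A) (hC : 0 ≤ C) (hα : 0 ≤ α) (hθ : 0 < θ)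
    (h : ∀ u : ℝ, 0 < u → HH a b θ u ≤ (A + C * u) * Real.exp (α * u)) (hU : 0 < U) :
    RR a b U ≤ (A + C * U) * (2 + 4 * U * (1 + θ * U)) * Real.exp (α * U) := by
  rcases lt_or_ge U (1 / 2) with h1 | h1
  · unfold RR
    rw [idx_empty h1, Finset.sum_empty]
    positivity
  · rw [rr_eq hθ hU]
    set E : ℝ := (A + C * U) * Real.exp (α * U) with hE
    have hE0 : 0 ≤ E := by positivity
    have h2 : HH a b θ U / U ≤ 2 * E := by
      rw [div_le_iff₀ hU]
      have := h U hU
      nlinarith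
    have h3 : ∀ u ∈ Ioc 0 U, HH a b θ u / u ^ 2 ≤ 4 * E := by
      intro u hu
      rcases lt_or_ge u (1 / 2) with h4 | h4
      · unfold HH
        rw [idx_empty h4, Finset.sum_empty, zero_div]
        linarith
      · have hu0 : 0 < u := hu.1
        rw [div_le_iff₀ (by positivity)]
        have h5 := h u hu0
        have h6 : (A + C * u) * Real.exp (α * u) ≤ E := by
          rw [hE]
          have h7 : Real.exp (α * u) ≤ Real.exp (α * U) :=
            Real.exp_le_exp.2 (mul_le_mul_of_nonneg_left hu.2 hα)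
          have h8 : C * u ≤ C * U := mul_le_mul_of_nonneg_left hu.2 hC
          exact mul_le_mul (by linarith) h7 (Real.exp_pos _).le (by positivity)
        have h7 : (1 : ℝ) / 4 ≤ u ^ 2 := by nlinarith
        nlinarith
    have h4 : ∫ u in (0 : ℝ)..U, HH a b θ u / u ^ 2 ≤ 4 * E * U := by
      have h5 : ∫ u in (0 : ℝ)..U, HH a b θ u / u ^ 2 ≤ ∫ _ in (0 : ℝ)..U, 4 * E := by
        refine intervalIntegral.integral_mono_on_of_le_Ioo hU.le (hh_int hU)
          intervalIntegrable_const fun u hu => h3 u ⟨hu.1, hu.2.le⟩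
      rw [intervalIntegral.integral_const, smul_eq_mul, sub_zero] at h5
      linarith
    have h5 : 0 ≤ 1 + θ * U := by positivity
    have h6 := mul_le_mul_of_nonneg_left h4 h5
    have h7 : (A + C * U) * (2 + 4 * U * (1 + θ * U)) * Real.exp (α * U) =
        2 * E + (1 + θ * U) * (4 * E * U) := by
      rw [hE]
      ring
    rw [h7]
    linarith

end

end Pool.Agent.Q284.B
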