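import Pool.Agent.TH941.Half

/-!
# A Tauberian theorem for sums over primes with coefficients `O(1/p)`
-/

set_option autoImplicit false

open MeasureTheory Filter Topology Set
open Pool.Agent.W263.BSD
open Pool.Agent.TH941 (PS)

namespace Pool.Agent.Q284.B

variable {c : ℕ → ℝ} {B : ℝ}

theorem slow2 (hc : PS c B) : ∃ K : ℝ, 0 ≤ K ∧ ∃ u0 : ℝ, 2 ≤ u0 ∧ ∀ U u : ℝ, u0 ≤ U → 0 < u →
    |stp c U - stp c u| ≤ B * |Real.log (U / u)| + K := by
  obtain ⟨u0, h2, h⟩ := hc.slow1 one_pos
  have hB := hc.pos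
  set K1 : ℝ := (∑' n : ℕ, |c n| * (n : ℝ) ^ (-(1 : ℝ))) * Real.exp (1 * u0) with hK1
  have hK0 : 0 ≤ K1 := by
    have : 0 ≤ ∑' n : ℕ, |c n| * (n : ℝ) ^ (-(1 : ℝ)) := tsum_nonneg fun n => by positivity
    positivity
  have hb : ∀ u : ℝ, u ≤ u0 → |stp c u| ≤ K1 := fun u hu => by
    refine (stp_abs hc.zero (hc.summable one_pos) zero_le_one u).trans ?_
    rw [hK1]
    have h1 : Real.exp (1 * u) ≤ Real.exp (1 * u0) := Real.exp_le_exp.mpr (by linarith)
    have h3 : 0 ≤ ∑' n : ℕ, |c n| * (n : ℝ) ^ (-(1 : ℝ)) := tsum_nonneg fun n => by positivity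
    exact mul_le_mul_of_nonneg_left h1 h3
  refine ⟨1 + 2 * K1, by positivity, u0, h2, fun U u hU hu => ?_⟩
  have hU0 : 0 < U := by linarith
  rcases le_total u0 u with h3 | h3
  · rcases le_total u U with h4 | h4
    · have h5 := h u U h3 h4
      have h6 : Real.log (U / u) ≤ |Real.log (U / u)| := le_abs_self _
      nlinarith
    · have h5 := h U u hU h4
      rw [abs_sub_comm]
      have h6 : Real.log (u / U) ≤ |Real.log (U / u)| := by
        have : Real.log (u / U) = -Real.log (U / u) := by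
          rw [← Real.log_inv, inv_div]
        rw [this]
        exact neg_le_abs _
      nlinarith
  · have h5 := h u0 U le_rfl hU
    have h6 := hb u0 le_rfl
    have h7 := hb u h3
    have h8 : Real.log (U / u0) ≤ |Real.log (U / u)| := by
      refine le_trans (Real.log_le_log (by positivity) ?_) (le_abs_self _)
      exact div_le_div_of_nonneg_left hU0.le hu h3
    have h9 : |stp c U - stp c u| ≤ |stp c U - stp c u0| + |stp c u0| + |stp c u| := by
      have e : stp c U - stp c u = (stp c U - stp c u0) + stp c u0 - stp c u := by ring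
      rw [e]
      refine (abs_sub _ _).trans ?_
      have := abs_add_le (stp c U - stp c u0) (stp c u0)
      linarith
    nlinarith

theorem abs_log_div_le {U u : ℝ} (hU : 0 < U) (hu : 0 < u) :
    |Real.log (U / u)| ≤ 2 * √U * u ^ ((0 + 1 / 2 : ℝ) - 1) + u / U := by
  have h1 : (0 : ℝ) < U / u := div_pos hU hu
  have h2 : u ^ ((0 + 1 / 2 : ℝ) - 1) = 1 / √u := by
    rw [show (0 + 1 / 2 : ℝ) - 1 = -(1 / 2) by norm_num, Real.rpow_neg hu.le, ← Real.sqrt_eq_rpow,
      one_div]
  rw [h2]
  have h3 : 0 ≤ 2 * √U * (1 / √u) := by positivity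
  have h4 : 0 ≤ u / U := by positivity
  rw [abs_le]
  constructor
  · have h5 := Real.log_le_sub_one_of_pos (show 0 < u / U by positivity)
    have h6 : Real.log (u / U) = -Real.log (U / u) := by rw [← Real.log_inv, inv_div]
    rw [h6] at h5
    linarith
  · have h5 := Real.log_le_sub_one_of_pos (show 0 < √(U / u) by positivity)
    have h6 : Real.log √(U / u) = Real.log (U / u) / 2 := Real.log_sqrt h1.le
    rw [h6, Real.sqrt_div hU.le] at h5
    have h7 : 2 * √U * (1 / √u) = 2 * (√U / √u) := by ring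
    rw [h7]
    linarith

theorem stp_bounded (hc : PS c B) {C0 : ℝ}
    (h : Tendsto (fun w : ℝ => ∑' n : ℕ, c n * (n : ℝ) ^ (-w)) (𝓝[>] 0) (𝓝 C0)) :
    ∃ M : ℝ, ∀ u : ℝ, 0 < u → |stp c u| ≤ M := by
  obtain ⟨K, hK, u0, hu0, hs⟩ := slow2 hc
  have hB := hc.pos
  have h1 := h.abs.eventually (gt_mem_nhds (show |C0| < |C0| + 1 by linarith))
  obtain ⟨w0, hw0, h2⟩ := (mem_nhdsGT_iff_exists_Ioo_subset).1 h1
  have hw0' : (0 : ℝ) < w0 := hw0
  set U1 : ℝ := max u0 (2 / w0) with hU1
  set K1 : ℝ := (∑' n : ℕ, |c n| * (n : ℝ) ^ (-(1 : ℝ))) * Real.exp (1 * U1) with hK1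
  have hsum0 : 0 ≤ ∑' n : ℕ, |c n| * (n : ℝ) ^ (-(1 : ℝ)) := tsum_nonneg fun n => by positivity
  have hK0 : 0 ≤ K1 := by positivity
  set M1 : ℝ := B * (2 * √Real.pi + 1) + K + (|C0| + 1) with hM1
  refine ⟨max K1 M1, fun U hU => ?_⟩
  rcases le_total U U1 with h3 | h3
  · refine le_trans ?_ (le_max_left _ _)
    refine (stp_abs hc.zero (hc.summable one_pos) zero_le_one U).trans ?_
    rw [hK1]
    exact mul_le_mul_of_nonneg_left (Real.exp_le_exp.mpr (by linarith)) hsum0
  · refine le_trans ?_ (le_max_right _ _)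
    have hUu : u0 ≤ U := (le_max_left _ _).trans h3
    have hUw : 2 / w0 ≤ U := (le_max_right _ _).trans h3
    set w : ℝ := 1 / U with hw
    have hwpos : 0 < w := by positivity
    have hww : w < w0 := by
      rw [hw, div_lt_iff₀ hU]
      rw [div_le_iff₀ hw0'] at hUw
      nlinarith
    have i1 : LInt (stp c) w := stp_LInt hc.zero (fun _ h => hc.summable h) hwpos
    have e1 := (stp_hasSum hc.zero (fun _ h => hc.summable h) hwpos).tsum_eq
    have h4 : |w * lap (stp c) w| < |C0| + 1 := by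
      rw [← e1]
      exact h2 ⟨hwpos, hww⟩
    -- the comparison
    set gg : ℝ → ℝ := fun u => B * (2 * √U * u ^ ((0 + 1 / 2 : ℝ) - 1) + 1 / U * u ^ 1) + K * 1
      with hgg
    have j1 : LInt (fun u : ℝ => u ^ ((0 + 1 / 2 : ℝ) - 1)) w := by
      have := sqrtinv_LInt 0 hwpos
      simpa using this
    have j2 : LInt (fun u : ℝ => u ^ 1) w := pow_LInt 1 hwpos
    have j3 : LInt (fun _ : ℝ => (1 : ℝ)) w := one_LInt hwpos
    have j4 : LInt (fun u : ℝ => 2 * √U * u ^ ((0 + 1 / 2 : ℝ) - 1) + 1 / U * u ^ 1) w :=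
      (j1.const_mul _).add (j2.const_mul _)
    have jg : LInt gg w := (j4.const_mul B).add (j3.const_mul K)
    have l1 : lap (fun u : ℝ => u ^ ((0 + 1 / 2 : ℝ) - 1)) w = √U * √Real.pi := by
      unfold lap
      rw [Real.integral_rpow_mul_exp_neg_mul_Ioi (a := 0 + 1 / 2) (by norm_num) hwpos, hw, one_div_one_div,
        zero_add, Real.Gamma_one_half_eq, ← Real.sqrt_eq_rpow]
    have l2 : lap (fun u : ℝ => u ^ 1) w = U ^ 2 := by
      rw [pow_lap 1 hwpos, hw]
      simp
    have l3 : lap (fun _ : ℝ => (1 : ℝ)) w = U := by rw [one_lap hwpos, hw, one_div_one_div]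
    have lg : w * lap gg w = B * (2 * √Real.pi + 1) + K := by
      have e2 : lap gg w = B * (2 * √U * (√U * √Real.pi) + 1 / U * U ^ 2) + K * U := by
        rw [hgg, lap_add (j4.const_mul B) (j3.const_mul K), lap_const_mul, lap_const_mul,
          lap_add (j1.const_mul _) (j2.const_mul _), lap_const_mul, lap_const_mul, l1, l2, l3]
      rw [e2, hw]
      have hs : √U * √U = U := Real.mul_self_sqrt hU.le
      have : 2 * √U * (√U * √Real.pi) = 2 * U * √Real.pi := by
        rw [← hs]; ring_nf; rw [Real.sq_sqrt (by positivity)]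
      rw [this]
      field_simp
    have j5 : LInt (fun u : ℝ => stp c U * 1 - stp c u) w := (j3.const_mul (stp c U)).sub i1
    have hle : ∀ u : ℝ, 0 < u → |stp c U * 1 - stp c u| ≤ gg u := by
      intro u hu
      rw [mul_one]
      refine (hs U u hUu hu).trans ?_
      rw [hgg]
      simp only
      have h6 := abs_log_div_le hU hu
      have h7 : u / U = 1 / U * u ^ 1 := by ring
      rw [h7] at h6
      nlinarith
    have h5 : |lap (fun u : ℝ => stp c U * 1 - stp c u) w| ≤ lap gg w := by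
      rw [abs_le]
      constructor
      · have := lap_mono (jg.const_mul (-1)) j5 fun u hu => by
          have := (abs_le.1 (hle u hu)).1
          linarith
        rw [lap_const_mul] at this
        linarith
      · exact lap_mono j5 jg fun u hu => (abs_le.1 (hle u hu)).2
    rw [lap_sub (j3.const_mul _) i1, lap_const_mul, l3] at h5
    have h6 : |stp c U - w * lap (stp c) w| ≤ B * (2 * √Real.pi + 1) + K := by
      rw [← lg]
      have e3 : stp c U - w * lap (stp c) w = w * (stp c U * U - lap (stp c) w) := by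
        rw [hw]; field_simp
      rw [e3, abs_mul, abs_of_pos hwpos]
      exact mul_le_mul_of_nonneg_left h5 hwpos.le
    have h7 := abs_sub_abs_le_abs_sub (stp c U) (w * lap (stp c) w)
    rw [hM1]
    linarith

/-- **Tauberian theorem.** -/
theorem stp_tendsto (hc : PS c B) {C0 : ℝ}
    (h : Tendsto (fun w : ℝ => ∑' n : ℕ, c n * (n : ℝ) ^ (-w)) (𝓝[>] 0) (𝓝 C0)) :
    Tendsto (stp c) atTop (𝓝 C0) := by
  obtain ⟨M, hM⟩ := stp_bounded hc h
  have hB := hc.pos
  refine tauber_limit (stp_meas c) (fun w hw => stp_LInt hc.zero (fun _ h => hc.summable h) hw) hM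
    ?_ fun ε hε => ?_
  · refine h.congr' ?_
    filter_upwards [self_mem_nhdsWithin] with w hw
    exact (stp_hasSum hc.zero (fun _ h => hc.summable h) hw).tsum_eq
  · obtain ⟨u0, h2, h3⟩ := hc.slow1 (show 0 < ε / 2 by positivity)
    refine ⟨ε / (2 * B), by positivity, u0, fun u v h4 h5 h6 => ?_⟩
    have hu : 0 < u := by linarith
    have h7 := h3 u v h4 h5
    have h8 : B * Real.log (v / u) ≤ ε / 2 := by
      have e1 : v / u ≤ 1 + ε / (2 * B) := by rw [div_le_iff₀ hu]; exact h6
      have e2 : 0 < v / u := div_pos (by linarith) hu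
      have e3 := Real.log_le_sub_one_of_pos e2
      have e4 : Real.log (v / u) ≤ ε / (2 * B) := by linarith
      refine (mul_le_mul_of_nonneg_left e4 hB.le).trans (le_of_eq ?_)
      field_simp
    have h9 := (abs_le.1 h7).2
    linarith

end Pool.Agent.Q284.B
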